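import Pool.Agent.Lib.MP_50cd9e_lc.Alg

namespace Pool.Agent.Lib.NUC

open Pool.Agent.Lib.MP_50cd9e_lc Pool.Agent.Lib.MP_3930bf_lc Pool.Agent.Lib.helper82

def od (cs : List Con) : Var := cv 2 (ones (L1 cs))

def chainD (L : List Bool) : List Eqn :=
  [(false, cv 2 [], tv), (false, cv 2 [], tv), (true, tv, tv)] ::
    (steps L).map fun s => [(false, cv 2 (true :: s), tv), (true, cv 2 s, cv 2 s)]

def Q3 (cs : List Con) : List Eqn := chainD (L1 cs) ++ cs.map (eqOf (od cs))

def U3 (cs : List Con) : List Var := tv :: (cvars 2 (L1 cs) ++ xvars cs)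

theorem forall_chainD {L : List Bool} {P : Eqn → Prop} :
    (∀ e ∈ chainD L, P e) ↔
      P [(false, cv 2 [], tv), (false, cv 2 [], tv), (true, tv, tv)] ∧
      ∀ i < L.length, P [(false, cv 2 (List.replicate (i + 1) true), tv),
        (true, cv 2 (List.replicate i true), cv 2 (List.replicate i true))] := by
  simp only [chainD, List.mem_cons, forall_eq_or_imp, List.mem_map, mem_steps]
  refine and_congr_right fun _ => ⟨fun h i hi => h _ ⟨_, ⟨i, hi, rfl⟩, rfl⟩, ?_⟩
  rintro h _ ⟨_, ⟨i, hi, rfl⟩, rfl⟩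
  exact h i hi

theorem od_eq (cs : List Con) : od cs = cv 2 (List.replicate (L1 cs).length true) := by
  rw [od, ones_eq]

theorem over_Q3 (cs : List Con) : Over (fun v => v ∈ U3 cs) (Q3 cs) := by
  have ht : tv ∈ U3 cs := List.mem_cons_self
  have hc : ∀ i ≤ (L1 cs).length, cv 2 (List.replicate i true) ∈ U3 cs := fun i hi =>
    List.mem_cons_of_mem _ (List.mem_append_left _ (mem_cvars.2 ⟨i, hi, rfl⟩))
  refine Over.append ?_ ((over_eqs (od cs) cs).mono ?_)
  · unfold Over
    rw [forall_chainD]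
    refine ⟨?_, fun i hi => ?_⟩
    · have := hc 0 (Nat.zero_le _)
      simp only [List.mem_cons, List.not_mem_nil, or_false]
      rintro _ (rfl | rfl | rfl)
      exacts [⟨this, ht⟩, ⟨this, ht⟩, ⟨ht, ht⟩]
    · simp only [List.mem_cons, List.not_mem_nil, or_false]
      rintro _ (rfl | rfl)
      exacts [⟨hc _ hi, ht⟩, ⟨hc _ hi.le, hc _ hi.le⟩]
  · rintro v (rfl | hv)
    · rw [od_eq]
      exact hc _ le_rfl
    · exact List.mem_cons_of_mem _ (List.mem_append_right _ hv)

theorem tag_U3 {cs : List Con} {v : Var} (h : v ∈ U3 cs) : v.1 ≤ 4 := by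
  simp only [U3, List.mem_cons, List.mem_append, mem_cvars] at h
  rcases h with rfl | ⟨i, -, rfl⟩ | h
  · simp [tv]
  · simp [cv]
  · rw [tag_xvars h]; omega

theorem bounded_sol {cs : List Con} (h : ∃ w : Nm → ℝ, ∀ c ∈ cs, Sat w c) :
    ∃ w : Var → ℝ, w tv = 1 ∧ (∀ v ∈ U3 cs, w v ^ 2 ≤ 1) ∧ ∀ e ∈ Q3 cs, evq w e = 0 := by
  obtain ⟨w, hw⟩ := h
  set o := od cs with ho
  obtain ⟨w₀, h0, h1, -, h2, -⟩ := lemG_sys o (xvars cs) (cs.map (eqOf o)) (normC o (xvars cs))
    (over_eqs o cs) (by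
      intro e he m hm
      obtain ⟨v, hv, rfl⟩ := List.mem_map.1 he
      rw [List.mem_singleton.1 hm]
      exact ⟨Or.inr hv, Or.inl rfl⟩) (k := (L1 cs).length) (by
      rw [L1, length_kkL, length_ones, List.length_append, length_sqL, length_sqL,
        sqLen_eqs o tv]
      simp [sqLen, normC, Function.comp_def])
    (fun t => ⟨1 + t, fun w hw ht v hv => abs_le_of_sq (by
      rw [ss_normC hw] at ht
      linarith [sq_le_sum w hv, ss_nonneg w (cs.map (eqOf o))])⟩)
    ⟨fun v => if v = o then 1 else w v.2, by simp, by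
      rw [ss_eq_zero]
      intro e he
      obtain ⟨c, hc, rfl⟩ := List.mem_map.1 he
      rw [evq_eqOf (by simp)]
      have : (fun n : Nm => if ((1, n) : Var) = o then (1 : ℝ) else w ((1, n) : Var).2) = w := by
        funext n
        rw [if_neg]
        intro h
        simp [ho, od, cv] at h
      rw [this]
      exact hw c hc⟩
  rw [ss_normC h0] at h2
  set k := (L1 cs).length with hk
  let w₁ : Var → ℝ := fun v => if v.1 = 0 then 1 else if v.1 = 2 then
    (2 ^ 2 ^ v.2.2.length)⁻¹ else (2 ^ 2 ^ k)⁻¹ * w₀ v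
  have ht : w₁ tv = 1 := by simp [w₁, tv]
  have hc : ∀ i, w₁ (cv 2 (List.replicate i true)) = (2 ^ 2 ^ i)⁻¹ := fun i => by simp [w₁, cv]
  have hx : ∀ v ∈ xvars cs, w₁ v = (2 ^ 2 ^ k)⁻¹ * w₀ v := fun v hv => by
    simp [w₁, tag_xvars hv]
  have hM : ∀ i : ℕ, (1 : ℝ) ≤ 2 ^ 2 ^ i := fun i => one_le_pow₀ (by norm_num)
  refine ⟨w₁, ht, fun v hv => ?_, List.forall_mem_append.2 ⟨?_, ?_⟩⟩
  · simp only [U3, List.mem_cons, List.mem_append, mem_cvars] at hv
    rcases hv with rfl | ⟨i, -, rfl⟩ | hv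
    · simp [ht]
    · rw [hc]
      exact pow_le_one₀ (by positivity) (inv_le_one_of_one_le₀ (hM i))
    · rw [hx v hv, mul_pow, inv_pow]
      refine inv_mul_le_one_of_le₀ (((sq_le_sum w₀ hv).trans h2).trans ?_) (by positivity)
      exact le_self_pow₀ (hM k) two_ne_zero
  · rw [forall_chainD]
    refine ⟨?_, fun i _ => ?_⟩
    · have := hc 0
      simp only [List.replicate_zero] at this
      simp [mono, ht, this]
      norm_num
    · simp only [evq_cons, mono, ht, hc, evq_nil, sgn_true, sgn_false, pow_succ 2 i, pow_mul]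
      ring
  · rw [← ss_eq_zero, ss_scale (over_eqs o cs) (w := w₀) (2 ^ 2 ^ k)⁻¹ (fun v hv => by
      rcases hv with rfl | hv
      · rw [h0, ho, od_eq, hc, mul_one]
      · exact hx v hv), h1, mul_zero]

theorem sat_of_Q3 {cs : List Con} {w : Var → ℝ} (ht : w tv = 1)
    (h : ∀ e ∈ Q3 cs, evq w e = 0) : ∃ w : Nm → ℝ, ∀ c ∈ cs, Sat w c := by
  have hc : ∀ e ∈ chainD (L1 cs), evq w e = 0 := fun e he => h e (List.mem_append_left _ he)
  rw [forall_chainD] at hc
  have hz : ∀ i, i ≤ (L1 cs).length → w (cv 2 (List.replicate i true)) ≠ 0 := by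
    intro i
    induction i with
    | zero =>
      intro _ h0
      have := hc.1
      simp only [List.replicate_zero] at h0
      simp [mono, ht, h0] at this
    | succ i ih =>
      intro hi h0
      have := hc.2 i hi
      simp [mono, h0, ih (by omega)] at this
  have ho : w (od cs) ≠ 0 := by
    rw [od_eq]
    exact hz _ le_rfl
  have h1 : ss (fun v => (w (od cs))⁻¹ * w v) (cs.map (eqOf (od cs))) = 0 := by
    rw [ss_scale (S := fun _ => True) (fun _ _ _ _ => ⟨trivial, trivial⟩) (w := w) _ fun _ _ => rfl,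
      (ss_eq_zero _ _).2 fun e he => h e (List.mem_append_right _ he), mul_zero]
  rw [ss_eq_zero] at h1
  exact ⟨fun n => (w (od cs))⁻¹ * w (1, n), fun c hc =>
    (evq_eqOf (w := fun v => (w (od cs))⁻¹ * w v) (inv_mul_cancel₀ ho) c).1
      (h1 _ (List.mem_map_of_mem hc))⟩

end Pool.Agent.Lib.NUC
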