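import Mathlib

namespace Pool.Agent.Lib.NUC

open Finset

variable {P : Type} [Fintype P]

def decs (T : P → P → P → ℝ) : Set ℝ :=
  {s : ℝ | ∃ (m : ℕ) (x y z : Fin m → P → ℝ), (∀ i j k, T i j k = ∑ r, x r i * y r j * z r k) ∧
    s = ∑ r, √(∑ i, x r i ^ 2) * √(∑ j, y r j ^ 2) * √(∑ k, z r k ^ 2)}

theorem mem_decs {ι : Type} [Fintype ι] {T : P → P → P → ℝ} (x y z : ι → P → ℝ)
    (h : ∀ i j k, T i j k = ∑ r, x r i * y r j * z r k) :
    ∑ r, √(∑ i, x r i ^ 2) * √(∑ j, y r j ^ 2) * √(∑ k, z r k ^ 2) ∈ decs T := by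
  let e := (Fintype.equivFin ι).symm
  refine ⟨_, fun r => x (e r), fun r => y (e r), fun r => z (e r), fun i j k => ?_, ?_⟩
  · rw [h]
    exact (e.sum_comp fun r => x r i * y r j * z r k).symm
  · exact (e.sum_comp fun r => √(∑ i, x r i ^ 2) * √(∑ j, y r j ^ 2) * √(∑ k, z r k ^ 2)).symm

theorem bdd_decs (T : P → P → P → ℝ) : BddBelow (decs T) := by
  refine ⟨0, ?_⟩
  rintro _ ⟨m, x, y, z, -, rfl⟩
  positivity

theorem decs_nonempty (T : P → P → P → ℝ) : (decs T).Nonempty := by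
  classical
  refine ⟨_, mem_decs (ι := P × P) (fun r i => if i = r.1 then 1 else 0)
    (fun r j => if j = r.2 then 1 else 0) (fun r k => T r.1 r.2 k) fun i j k => ?_⟩
  rw [Fintype.sum_prod_type, sum_eq_single i, sum_eq_single j]
  · simp
  · intro b _ hb; simp [Ne.symm hb]
  · simp
  · intro b _ hb; simp [Ne.symm hb]
  · simp

def Rep (ι : Type) [Fintype ι] (T : P → P → P → ℝ) (σ : ℝ) : Prop :=
  ∃ (l : ι → ℝ) (x y z : ι → P → ℝ), (∀ r, 0 ≤ l r ∧ ∑ i, x r i ^ 2 ≤ 1 ∧ ∑ i, y r i ^ 2 ≤ 1 ∧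
    ∑ i, z r i ^ 2 ≤ 1) ∧ ∑ r, l r ≤ σ ∧ ∀ i j k, T i j k = ∑ r, l r * x r i * y r j * z r k

variable {ι : Type} [Fintype ι]

theorem Rep.le {T : P → P → P → ℝ} {σ : ℝ} (h : Rep ι T σ) : sInf (decs T) ≤ σ := by
  obtain ⟨l, x, y, z, h1, h2, h3⟩ := h
  refine (csInf_le (bdd_decs T) (mem_decs (fun r i => l r * x r i) y z h3)).trans
    (le_trans (sum_le_sum fun r _ => ?_) h2)
  obtain ⟨h0, hx, hy, hz⟩ := h1 r
  have e : √(∑ i, (l r * x r i) ^ 2) = l r * √(∑ i, x r i ^ 2) := by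
    simp only [mul_pow, ← mul_sum]
    rw [Real.sqrt_mul (sq_nonneg _), Real.sqrt_sq h0]
  rw [e, mul_assoc, mul_assoc]
  refine mul_le_of_le_one_right h0 (mul_le_one₀ (Real.sqrt_le_one.2 hx) (by positivity)
    (mul_le_one₀ (Real.sqrt_le_one.2 hy) (by positivity) (Real.sqrt_le_one.2 hz)))

def unitT (P : Type) [Fintype P] : Set (P → P → P → ℝ) :=
  {T | ∃ x y z : P → ℝ, ∑ i, x i ^ 2 ≤ 1 ∧ ∑ i, y i ^ 2 ≤ 1 ∧ ∑ i, z i ^ 2 ≤ 1 ∧
    T = fun i j k => x i * y j * z k}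

theorem normalize (x : P → ℝ) : ∃ u : P → ℝ, ∑ i, u i ^ 2 ≤ 1 ∧
    ∀ i, x i = √(∑ i, x i ^ 2) * u i := by
  have h0 : 0 ≤ ∑ i, x i ^ 2 := by positivity
  refine ⟨fun i => (√(∑ i, x i ^ 2))⁻¹ * x i, ?_, fun i => ?_⟩
  · simp only [mul_pow, ← mul_sum, inv_pow]
    rw [Real.sq_sqrt h0]
    exact inv_mul_le_one_of_le₀ le_rfl h0
  · by_cases h : ∑ i, x i ^ 2 = 0
    · have := (sum_eq_zero_iff_of_nonneg fun _ _ => sq_nonneg _).1 h i (mem_univ i)
      rw [pow_eq_zero_iff two_ne_zero] at this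
      simp [this]
    · have : √(∑ i, x i ^ 2) ≠ 0 := by rwa [Ne, Real.sqrt_eq_zero h0]
      field_simp

theorem hull_of_dec {T : P → P → P → ℝ} {s t : ℝ} (hs : s ∈ decs T) (ht : s < t) :
    t⁻¹ • T ∈ convexHull ℝ (unitT P) := by
  obtain ⟨m, x, y, z, h, rfl⟩ := hs
  choose u hu hx using fun r => normalize (x r)
  choose v hv hy using fun r => normalize (y r)
  choose w hw hz using fun r => normalize (z r)
  set c : Fin m → ℝ := fun r => √(∑ i, x r i ^ 2) * √(∑ j, y r j ^ 2) * √(∑ k, z r k ^ 2) with hc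
  have hc0 : ∀ r, 0 ≤ c r := fun r => by positivity
  have ht0 : 0 < t := lt_of_le_of_lt (sum_nonneg fun r _ => hc0 r) ht
  refine mem_convexHull_of_exists_fintype (ι := Option (Fin m))
    (fun o => o.elim (1 - t⁻¹ * ∑ r, c r) fun r => t⁻¹ * c r)
    (fun o => o.elim 0 fun r i j k => u r i * v r j * w r k) ?_ ?_ ?_ ?_
  · rintro (_ | r)
    · exact sub_nonneg.2 (inv_mul_le_one_of_le₀ ht.le ht0.le)
    · exact mul_nonneg (inv_nonneg.2 ht0.le) (hc0 r)
  · simp [Fintype.sum_option, ← mul_sum]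
  · rintro (_ | r)
    · exact ⟨0, 0, 0, by simp, by simp, by simp, by funext i j k; simp⟩
    · exact ⟨_, _, _, hu r, hv r, hw r, rfl⟩
  · funext i j k
    simp only [Fintype.sum_option, Option.elim, Pi.zero_apply, mul_zero, zero_add,
      Finset.sum_apply, Pi.smul_apply, smul_eq_mul, h, mul_sum]
    refine sum_congr rfl fun r _ => ?_
    rw [hx r i, hy r j, hz r k]
    simp only [hc]
    ring

theorem rep_of_hull (hι : Fintype.card P ^ 3 + 1 ≤ Fintype.card ι) {T : P → P → P → ℝ}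
    (h : T ∈ convexHull ℝ (unitT P)) : Rep ι T 1 := by
  classical
  obtain ⟨κ, _, t, w, h1, h2, h3, h4, h5⟩ := eq_pos_convex_span_of_mem_convexHull h
  have hc : Fintype.card κ ≤ Fintype.card ι := by
    refine h2.card_le_finrank_succ.trans (le_trans ?_ hι)
    refine Nat.add_le_add_right ((Submodule.finrank_le _).trans (le_of_eq ?_)) 1
    simp [Module.finrank_pi_fintype]
    ring
  obtain ⟨f⟩ := Function.Embedding.nonempty_of_card_le hc
  choose x y z hx hy hz ht using fun r => h1 ⟨r, rfl⟩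
  have hs : ∀ g : ι → ℝ, (∀ r, (¬ ∃ a, f a = r) → g r = 0) → ∑ r, g r = ∑ a, g (f a) := by
    intro g hg
    rw [← sum_map univ f g]
    refine (sum_subset (subset_univ _) fun r _ hr => hg r ?_).symm
    simpa using hr
  refine ⟨Function.extend f w 0, Function.extend f x 0, Function.extend f y 0,
    Function.extend f z 0, fun r => ?_, ?_, fun i j k => ?_⟩
  · by_cases hr : ∃ a, f a = r
    · obtain ⟨a, rfl⟩ := hr
      simp only [f.injective.extend_apply]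
      exact ⟨(h3 a).le, hx a, hy a, hz a⟩
    · simp [Function.extend_apply' _ _ _ hr]
  · rw [hs _ fun r hr => by simp [Function.extend_apply' _ _ _ hr]]
    simp only [f.injective.extend_apply]
    exact h4.le
  · rw [hs _ fun r hr => by simp [Function.extend_apply' _ _ _ hr], ← h5]
    simp only [f.injective.extend_apply, Finset.sum_apply, Pi.smul_apply, smul_eq_mul, ht]
    exact sum_congr rfl fun a _ => by ring

theorem closed_rep : IsClosed {T : P → P → P → ℝ | Rep ι T 1} := by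
  let K : Set ((ι → ℝ) × (ι → P → ℝ) × (ι → P → ℝ) × (ι → P → ℝ)) :=
    {a | (∀ r, 0 ≤ a.1 r ∧ ∑ i, a.2.1 r i ^ 2 ≤ 1 ∧ ∑ i, a.2.2.1 r i ^ 2 ≤ 1 ∧
      ∑ i, a.2.2.2 r i ^ 2 ≤ 1) ∧ ∑ r, a.1 r ≤ 1}
  have hb : ∀ x : P → ℝ, ∑ i, x i ^ 2 ≤ 1 → ∀ i, -1 ≤ x i ∧ x i ≤ 1 := by
    intro x hx i
    rw [← abs_le, ← sq_le_one_iff_abs_le_one]
    exact (single_le_sum (f := fun i => x i ^ 2) (fun _ _ => sq_nonneg _) (mem_univ i)).trans hx
  have hK : IsCompact K := by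
    refine IsCompact.of_isClosed_subset (isCompact_Icc (a := -1) (b := 1)) ?_ ?_
    · simp only [K, Set.ofPred_and, Set.ofPred_forall]
      refine IsClosed.inter (isClosed_iInter fun r => ?_) (isClosed_le (by fun_prop) (by fun_prop))
      exact (isClosed_le (by fun_prop) (by fun_prop)).inter
        ((isClosed_le (by fun_prop) (by fun_prop)).inter
        ((isClosed_le (by fun_prop) (by fun_prop)).inter (isClosed_le (by fun_prop) (by fun_prop))))
    · rintro ⟨l, x, y, z⟩ ⟨h1, h2⟩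
      refine ⟨⟨fun r => le_trans (by simp) (h1 r).1, fun r i => (hb _ (h1 r).2.1 i).1,
        fun r i => (hb _ (h1 r).2.2.1 i).1, fun r i => (hb _ (h1 r).2.2.2 i).1⟩,
        fun r => ?_, fun r i => (hb _ (h1 r).2.1 i).2,
        fun r i => (hb _ (h1 r).2.2.1 i).2, fun r i => (hb _ (h1 r).2.2.2 i).2⟩
      exact (single_le_sum (fun r _ => (h1 r).1) (mem_univ r)).trans h2
  have h := hK.image (f := fun a => (fun i j k => ∑ r, a.1 r * a.2.1 r i * a.2.2.1 r j *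
    a.2.2.2 r k : P → P → P → ℝ)) (by fun_prop)
  refine Eq.mp (congrArg IsClosed (Set.ext fun T => ⟨?_, ?_⟩)) h.isClosed
  · rintro ⟨⟨l, x, y, z⟩, ⟨h1, h2⟩, rfl⟩
    exact ⟨l, x, y, z, h1, h2, fun _ _ _ => rfl⟩
  · rintro ⟨l, x, y, z, h1, h2, h3⟩
    exact ⟨⟨l, x, y, z⟩, ⟨h1, h2⟩, by funext i j k; exact (h3 i j k).symm⟩

theorem rep_of_le (hι : Fintype.card P ^ 3 + 1 ≤ Fintype.card ι) {T : P → P → P → ℝ} {σ : ℝ}
    (hσ : 0 < σ) (h : sInf (decs T) ≤ σ) : Rep ι T σ := by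
  have h1 : Rep ι (σ⁻¹ • T) 1 := by
    have ht : Filter.Tendsto (fun t : ℝ => t⁻¹ • T) (nhdsWithin σ (Set.Ioi σ)) (nhds (σ⁻¹ • T)) :=
      (((continuousAt_inv₀ hσ.ne').smul continuousAt_const).tendsto).mono_left nhdsWithin_le_nhds
    refine (closed_rep (ι := ι)).mem_of_tendsto ht (eventually_nhdsWithin_of_forall fun t ht => ?_)
    obtain ⟨s, hs, hst⟩ := exists_lt_of_csInf_lt (decs_nonempty T) (h.trans_lt ht)
    exact rep_of_hull hι (hull_of_dec hs hst)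
  obtain ⟨l, x, y, z, h2, h3, h4⟩ := h1
  refine ⟨fun r => σ * l r, x, y, z, fun r => ⟨mul_nonneg hσ.le (h2 r).1, (h2 r).2⟩, ?_,
    fun i j k => ?_⟩
  · rw [← mul_sum]
    exact mul_le_of_le_one_right hσ.le h3
  · have := h4 i j k
    simp only [Pi.smul_apply, smul_eq_mul] at this
    simp only [mul_assoc, ← mul_sum] at this ⊢
    rw [← this, mul_inv_cancel_left₀ hσ.ne']

end Pool.Agent.Lib.NUC
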