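import Pool.Agent.Lib.MP_50cd9e_lc.Defs

namespace Pool.Agent.Lib.NUC

open Pool.Agent.Lib.MP_50cd9e_lc

/-- The nuclear norm of the tensor: the infimum of `∑ ‖x r‖ ‖y r‖ ‖z r‖` over all ways of writing
the tensor as a finite sum of real rank one tensors `x r ⊗ y r ⊗ z r`. -/
noncomputable def nucNorm (I : Inst) : ℝ :=
  sInf {s : ℝ | ∃ (m : ℕ) (x y z : Fin m → Fin I.d → ℝ),
    (∀ i j k, (I.T i j k : ℝ) = ∑ r, x r i * y r j * z r k) ∧
    s = ∑ r, √(∑ i, x r i ^ 2) * √(∑ j, y r j ^ 2) * √(∑ k, z r k ^ 2)}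

/-- Membership in the class of problems reducible to the existential theory of the reals. -/
def InExistsR {α : Type} (ea : α → List Bool) (A : α → Prop) : Prop :=
  Red ea A MP_3930bf_lc.encFm fun φ => ∃ y : ℕ → ℝ, φ.Holds y

end Pool.Agent.Lib.NUC
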