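import Pool.Agent.Lib.NUC.Tens
import Pool.Agent.Lib.MP_50cd9e_lc.Tensor

namespace Pool.Agent.Lib.NUC

open Finset Pool.Agent.Lib.MP_50cd9e_lc

abbrev Lab := Var × Eqn

instance decLab : DecidableEq Lab := instDecidableEqProd

def sp (g : ℕ) : Var := (g, 0, [])
def lb (g : ℕ) : Lab := (sp g, [])
def wc : Mon := (sp 7, sp 7)
def uc : Mon := (sp 6, sp 6)

def blk (i : Lab) : Fin 3 := if i.1.1 ≤ 4 then 0 else if i.1.1 ≤ 6 then 1 else 2

def lin (i j : Lab) : Eqn :=
  if i.1.1 ≤ 4 then if j.1.1 ≤ 4 then [(false, i.1, j.1)] else [] else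
  if (i.1.1, j.1.1) = (5, 5) then [(false, tv, tv)] else
  if (i.1.1, j.1.1) = (5, 6) then [(false, wc)] else
  if (i.1.1, j.1.1) = (6, 5) then [(false, wc)] else
  if (i.1.1, j.1.1) = (7, 7) then [(false, wc)] else
  if (i.1.1, j.1.1) = (6, 6) then [(false, uc)] else
  if (i.1.1, j.1.1) = (9, 8) then i.2 else []

def labs (W : List Var) (E : List Eqn) : List Lab :=
  (W.map (fun v => (v, [])) ++ ([lb 5, lb 6, lb 7, lb 8] ++ E.map fun e => (sp 9, e))).dedup

theorem mem_labs {W : List Var} {E : List Eqn} {i : Lab} : i ∈ labs W E ↔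
    (∃ v ∈ W, (v, []) = i) ∨ i = lb 5 ∨ i = lb 6 ∨ i = lb 7 ∨ i = lb 8 ∨
      ∃ e ∈ E, (sp 9, e) = i := by
  simp only [labs, List.mem_dedup, List.mem_append, List.mem_map, List.mem_cons,
    List.not_mem_nil, or_false, or_assoc]

theorem lin_nil (i j : Lab) (h : blk i ≠ blk j) : lin i j = [] := by
  unfold blk at h
  unfold lin
  simp only [Prod.mk.injEq]
  split_ifs at h ⊢ <;> first | rfl | exact absurd rfl h | omega

def kl (W : List Var) : List Bool :=
  W.flatMap fun _ => W.flatMap fun _ => [false, false, false, false, false, false]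

def n0 (W : List Var) (c c' : Mon) : List Bool :=
  if c = c' then
    if c = wc then [false, false] else
    if c = uc then [false, false, false, false, false, false] else
    if c.1 ∈ W then if c.2 ∈ W then kl W else [] else []
  else if (c, c') = ((tv, tv), uc) then [false, false]
  else if (c, c') = (uc, (tv, tv)) then [false, false] else []

def val (R : Type) [Ring R] (l : List Bool) : R := (l.map sgn).sum

@[simp] theorem val_nil (R : Type) [Ring R] : val R [] = 0 := rfl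
@[simp] theorem val_cons (R : Type) [Ring R] (b : Bool) (l) :
    val R (b :: l) = sgn b + val R l := by simp [val]
@[simp] theorem val_append (R : Type) [Ring R] (l l') :
    val R (l ++ l') = val R l + val R l' := by simp [val]

theorem val_flatMap {α : Type} (l : List α) (f : α → List Bool) :
    val ℝ (l.flatMap f) = (l.map fun a => val ℝ (f a)).sum := by
  induction l with
  | nil => rfl
  | cons a l ih => simp [ih]

theorem val_kl (W : List Var) : val ℝ (kl W) = 6 * (W.length * W.length) := by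
  simp [kl, val_flatMap]
  ring

noncomputable def N0 (W : List Var) : Mon → Mon → ℝ := fun c c' => val ℝ (n0 W c c')

abbrev JJ (W : List Var) (E : List Eqn) : Type := {i : Lab // i ∈ labs W E}

def blkJ (W : List Var) (E : List Eqn) (i : JJ W E) : Fin 3 := blk i.1
def linJ (W : List Var) (E : List Eqn) (i j : JJ W E) : List (Bool × Mon) := lin i.1 j.1

noncomputable def zz (p q : Var → ℝ) (w u : ℝ) : Mon → ℝ := fun c =>
  if c = wc then w else if c = uc then u else p c.1 * q c.2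

theorem zz_main (p q : Var → ℝ) (w u : ℝ) {a b : Var} (h : a.1 ≤ 4) :
    zz p q w u (a, b) = p a * q b := by
  unfold zz
  rw [if_neg, if_neg]
  · intro h'
    rw [show a = sp 6 from (Prod.ext_iff.1 h').1] at h
    simp [sp] at h
  · intro h'
    rw [show a = sp 7 from (Prod.ext_iff.1 h').1] at h
    simp [sp] at h

theorem uc_ne : uc ≠ wc := by decide
theorem tt_ne : (tv, tv) ≠ wc := by decide
theorem tt_ne' : (tv, tv) ≠ uc := by decide

@[simp] theorem zz_wc (p q : Var → ℝ) (w u : ℝ) : zz p q w u wc = w := by simp [zz]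
@[simp] theorem zz_uc (p q : Var → ℝ) (w u : ℝ) : zz p q w u uc = u := by simp [zz, uc_ne]
@[simp] theorem zz_tt (p q : Var → ℝ) (w u : ℝ) : zz p q w u (tv, tv) = p tv * q tv :=
  zz_main p q w u (by simp [tv])

variable {W : List Var} {E : List Eqn}

theorem real_of (hW : ∀ v ∈ W, v.1 ≤ 4) {p q : Var → ℝ} {w u : ℝ} (a b a' b' g g' s : ℝ)
    (f : Eqn → ℝ) (h1 : a * a' = p tv * q tv) (h2 : a * b' = w) (h3 : b * a' = w)
    (h4 : b * b' = u) (h5 : g * g' = w) (h6 : g * s = 0) (h7 : ∀ e ∈ E, f e * g' = 0)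
    (h8 : ∀ e ∈ E, f e * s = ev (zz p q w u) e) :
    op (zz p q w u) ∈ Good (blkJ W E) (linJ W E) := by
  obtain ⟨P, Q, key⟩ : ∃ P Q : Lab → ℝ, ∀ i ∈ labs W E, ∀ j ∈ labs W E, blk i = blk j →
      P i * Q j = ev (zz p q w u) (lin i j) := by
    refine ⟨fun i => if i.1.1 ≤ 4 then p i.1 else if i.1.1 = 5 then a else if i.1.1 = 6 then b else
      if i.1.1 = 7 then g else if i.1.1 = 9 then f i.2 else 0,
      fun j => if j.1.1 ≤ 4 then q j.1 else if j.1.1 = 5 then a' else if j.1.1 = 6 then b' else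
      if j.1.1 = 7 then g' else if j.1.1 = 8 then s else 0, fun i hi j hj h => ?_⟩
    unfold blk at h
    unfold lin
    rcases mem_labs.1 hi with ⟨v, hv, rfl⟩ | rfl | rfl | rfl | rfl | ⟨e, he, rfl⟩
    · have := hW v hv
      rcases mem_labs.1 hj with ⟨v', hv', rfl⟩ | rfl | rfl | rfl | rfl | ⟨e', he', rfl⟩
      · simp [this, hW v' hv', zz_main]
      all_goals simp [this, lb, sp] at h
    all_goals
      rcases mem_labs.1 hj with ⟨v', hv', rfl⟩ | rfl | rfl | rfl | rfl | ⟨e', he', rfl⟩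
      · simp [hW v' hv', lb, sp] at h
    all_goals first
      | (simp [lb, sp] at h; done)
      | (simp [lb, sp, h1, h2, h3, h4, h5, h6]; done)
      | (simpa [lb, sp] using h7 e he)
      | (simpa [lb, sp] using h8 e he)
  exact good_op (P := fun i => P i.1) (Q := fun i => Q i.1) (fun i j h => lin_nil i.1 j.1 h)
    fun i j h => key i.1 i.2 j.1 j.2 h

theorem easy_main (hW : ∀ v ∈ W, v.1 ≤ 4) (p q : Var → ℝ) :
    op (zz p q 0 0) ∈ Good (blkJ W E) (linJ W E) :=
  real_of hW (p tv * q tv) 0 1 0 0 0 1 (ev (zz p q 0 0)) (by simp) (by simp) (by simp) (by simp)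
    (by simp) (by simp) (by simp) (by simp)

theorem easy_u (hW : ∀ v ∈ W, v.1 ≤ 4) {p q : Var → ℝ} (h : p tv * q tv = 0) :
    op (zz p q 0 1) ∈ Good (blkJ W E) (linJ W E) :=
  real_of hW 0 1 0 1 0 0 1 (ev (zz p q 0 1)) (by simp [h]) (by simp) (by simp) (by simp)
    (by simp) (by simp) (by simp) (by simp)

theorem hard_pt (hW : ∀ v ∈ W, v.1 ≤ 4) (hE : Over (fun v => v ∈ W) E) {p : Var → ℝ}
    (ht : p tv = 1) (h : ∀ e ∈ E, evq p e = 0) {s : ℝ} (hs : s * s = 1) :
    op (zz p p s 1) ∈ Good (blkJ W E) (linJ W E) := by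
  refine real_of hW 1 s 1 s s 1 0 (fun _ => 0) (by simp [ht]) (by simp) (by simp) hs
    (by simp) (by simp) (by simp) fun e he => ?_
  rw [mul_zero, ← h e he, ev_congr (z' := fun c => p c.1 * p c.2) fun a ha =>
    zz_main p p s 1 (hW _ (hE e he a ha).1)]
  rfl

noncomputable def mainL (T : Var → Var → Var → Var → ℝ) : Mon → Mon → ℝ := fun c c' =>
  if c = wc ∨ c = uc ∨ c' = wc ∨ c' = uc then 0 else T c.1 c.2 c'.1 c'.2

theorem mainL_good (hW : ∀ v ∈ W, v.1 ≤ 4) {T : Var → Var → Var → Var → ℝ} (h : T ∈ SepC Var) :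
    mainL T ∈ Good (blkJ W E) (linJ W E) := by
  induction h using AddSubmonoid.closure_induction with
  | mem A h =>
    obtain ⟨p, q, rfl⟩ := h
    have : mainL (tens (op p) (op q)) = op (zz p q 0 0) := by
      funext c c'
      simp only [mainL, op, zz, tens]
      by_cases h1 : c = wc <;> by_cases h2 : c = uc <;> by_cases h3 : c' = wc <;>
        by_cases h4 : c' = uc <;> simp [h1, h2, h3, h4]
      ring
    rw [this]
    exact easy_main hW p q
  | zero =>
    have : mainL 0 = 0 := by funext c c'; simp [mainL]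
    rw [this]; exact zero_mem _
  | add A B _ _ h h' =>
    have : mainL (A + B) = mainL A + mainL B := by
      funext c c'
      simp only [mainL, Pi.add_apply]
      split_ifs <;> simp
    rw [this]; exact add_mem h h'

theorem N0_good (hW : ∀ v ∈ W, v.1 ≤ 4) (htW : tv ∈ W) (hE : Over (fun v => v ∈ W) E)
    {w : Var → ℝ} (ht : w tv = 1) (hb : ∀ v ∈ W, w v ^ 2 ≤ 1) (h : ∀ e ∈ E, evq w e = 0) :
    N0 W ∈ Good (blkJ W E) (linJ W E) := by
  let p : Var → ℝ := fun v => if v ∈ W then w v else 0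
  let t : Var → ℝ := fun v => if v = tv then 1 else 0
  let r : Var → ℝ := fun v => t v - p v
  have hpt : p tv = 1 := by simp [p, htW, ht]
  have hp : ∀ e ∈ E, evq p e = 0 := by
    rw [← ss_eq_zero, ss_congr hE (w := w) fun v hv => if_pos hv, ss_eq_zero]
    exact h
  have hball : ∀ x y : Var → ℝ, (∀ v, v ∉ W → x v = 0) → (∀ v, v ∉ W → y v = 0) →
      (∀ v ∈ W, x v ^ 2 ≤ 1) → (∀ v ∈ W, y v ^ 2 ≤ 1) →
      ((W.length : ℝ) * W.length) • tens (idA W.toFinset) (idA W.toFinset) -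
        tens (op x) (op y) ∈ SepC Var := by
    intro x y hx hy hx' hy'
    have : ∀ x : Var → ℝ, (∀ v ∈ W, x v ^ 2 ≤ 1) → ∑ i ∈ W.toFinset, x i ^ 2 ≤ W.length := by
      intro x hx
      refine (sum_le_card_nsmul _ _ 1 fun v hv => hx v (List.mem_toFinset.1 hv)).trans ?_
      simpa using W.toFinset_card_le
    exact ball_sep (fun v hv => hx v (by simpa using hv)) (fun v hv => hy v (by simpa using hv))
      (this x hx') (this y hy')
  have p0 : ∀ v, v ∉ W → p v = 0 := fun v hv => if_neg hv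
  have t0 : ∀ v, v ∉ W → t v = 0 := fun v hv => if_neg fun h : v = tv => hv (h ▸ htW)
  have r0 : ∀ v, v ∉ W → r v = 0 := fun v hv => by simp [r, p0 v hv, t0 v hv]
  have p1 : ∀ v ∈ W, p v ^ 2 ≤ 1 := fun v hv => by simpa [p, hv] using hb v hv
  have t1 : ∀ v ∈ W, t v ^ 2 ≤ 1 := fun v _ => by
    simp only [t]
    split_ifs <;> norm_num
  have r1 : ∀ v ∈ W, r v ^ 2 ≤ 1 := fun v hv => by
    by_cases h : v = tv
    · simp [r, t, h, hpt]
    · simpa [r, t, h] using p1 v hv
  have hL := add_mem (add_mem (hball p p p0 p0 p1 p1) (hball r p r0 p0 r1 p1))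
    (hball t r t0 r0 t1 r1)
  have e1 := easy_u (E := E) hW (p := r) (q := p) (by simp [r, t, hpt])
  have e2 := easy_u (E := E) hW (p := t) (q := r) (by simp [r, t, hpt])
  have hall := add_mem (add_mem (add_mem (add_mem (hard_pt hW hE hpt hp (s := 1) (by norm_num))
    (hard_pt hW hE hpt hp (s := -1) (by norm_num))) (add_mem e1 e1)) (add_mem e2 e2))
    (mainL_good (E := E) hW (add_mem hL hL))
  refine Eq.mpr (congrArg (fun N => N ∈ Good (blkJ W E) (linJ W E)) ?_) hall
  funext c c'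
  have htt : ∀ c : Mon, t c.1 * t c.2 = if c = (tv, tv) then 1 else 0 := by
    rintro ⟨a, b⟩
    by_cases h1 : a = tv <;> by_cases h2 : b = tv <;> simp [t, h1, h2]
  simp only [Pi.add_apply, op, mainL, N0, n0, zz, Pi.sub_apply, Pi.smul_apply, tens, smul_eq_mul, r]
  by_cases h1 : c = wc
  · subst h1
    by_cases h2 : c' = wc
    · subst h2; norm_num
    · simp [h2, Ne.symm h2, uc_ne.symm, tt_ne.symm]
      split_ifs <;> simp
  by_cases h2 : c' = wc
  · subst h2
    simp [h1, uc_ne.symm, tt_ne.symm]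
  by_cases h3 : c = uc
  · subst h3
    by_cases h4 : c' = uc
    · subst h4; norm_num [uc_ne]
    · have := htt c'
      simp only [h2, h4, Ne.symm h4, uc_ne, if_false, if_true, Prod.mk.injEq, tt_ne'.symm,
        false_and, true_and, true_or, or_true]
      split_ifs at this ⊢
      · simp only [val_cons, val_nil, sgn_false]; linarith
      · simp only [val_nil]; linarith
  by_cases h4 : c' = uc
  · subst h4
    have := htt c
    simp only [h1, h3, uc_ne, if_false, if_true, Prod.mk.injEq, false_and, and_true, or_true]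
    split_ifs at this ⊢
    · simp only [val_cons, val_nil, sgn_false]; linarith
    · simp only [val_nil]; linarith
  simp only [h1, h2, h3, h4, if_false, or_self, Prod.mk.injEq, and_false, false_and, idA,
    List.mem_toFinset]
  have : val ℝ (if c = c' then if c.1 ∈ W then if c.2 ∈ W then kl W else [] else [] else []) =
      6 * (W.length * W.length) * ((if c.1 = c'.1 ∧ c.1 ∈ W then 1 else 0) *
        if c.2 = c'.2 ∧ c.2 ∈ W then 1 else 0) := by
    by_cases h5 : c = c'
    · subst h5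
      by_cases h6 : c.1 ∈ W <;> by_cases h7 : c.2 ∈ W <;> simp [h6, h7, val_kl]
    · have : ¬ (c.1 = c'.1 ∧ c.2 = c'.2) := fun h => h5 (Prod.ext h.1 h.2)
      by_cases h6 : c.1 = c'.1 <;> by_cases h7 : c.2 = c'.2 <;> simp_all
  rw [this]
  ring

theorem N0_pos (hW : ∀ v ∈ W, v.1 ≤ 4) (htW : tv ∈ W) : N0 W ∈ PosC Mon :=
  (N0_good (E := []) hW htW (fun _ h => by simp at h) (w := fun _ => 1) rfl (by simp)
    (by simp)).2

def lj (W : List Var) (E : List Eqn) (g : Fin 4) : JJ W E :=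
  ⟨lb (g + 5), mem_labs.2 (by fin_cases g <;> simp)⟩

theorem bf_w : bf (N0 W) (linJ W E (lj W E 2) (lj W E 2)) (linJ W E (lj W E 2) (lj W E 2)) = 2 := by
  have : linJ W E (lj W E 2) (lj W E 2) = [(false, wc)] := rfl
  rw [this]
  norm_num [bf, N0, n0]

theorem trc_pos (hW : ∀ v ∈ W, v.1 ≤ 4) (htW : tv ∈ W) :
    0 < trc (Psi (blkJ W E) (linJ W E) (N0 W)) := by
  have h0 := bf_nonneg (N0_pos hW htW)
  have h1 : 0 ≤ tau (linJ W E) (N0 W) := sum_nonneg fun _ _ => sum_nonneg fun _ _ => h0 _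
  have h2 : ∀ i j, bf (N0 W) (linJ W E i j) (linJ W E i j) ≤
      Psi (blkJ W E) (linJ W E) (N0 W) i j i j := by
    intro i j
    simp only [Psi, and_self, if_true]
    have := h0 (linJ W E i j)
    split_ifs <;> linarith
  refine sum_pos' (fun i _ => sum_nonneg fun j _ => (h0 _).trans (h2 i j))
    ⟨lj W E 2, mem_univ _, sum_pos' (fun j _ => (h0 _).trans (h2 _ j))
      ⟨lj W E 2, mem_univ _, lt_of_lt_of_le ?_ (h2 _ _)⟩⟩
  rw [bf_w]
  norm_num

theorem con_sound (hW : ∀ v ∈ W, v.1 ≤ 4) (htW : tv ∈ W) (hE : Over (fun v => v ∈ W) E)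
    (hsym : ∀ v ∈ W, [(false, tv, v), (true, v, tv)] ∈ E) {ι : Type} [Fintype ι] {c : ι → ℝ}
    (hc : ∀ r, 0 ≤ c r) {p q : ι → JJ W E → ℝ}
    (hT : ∀ i j i' j', Psi (blkJ W E) (linJ W E) (N0 W) i j i' j' =
      ∑ r, c r * (p r i * q r j) * (p r i' * q r j')) :
    ∃ w : Var → ℝ, w tv = 1 ∧ ∀ e ∈ E, evq w e = 0 := by
  let m : ∀ v ∈ W, JJ W E := fun v hv => ⟨(v, []), mem_labs.2 (Or.inl ⟨v, hv, rfl⟩)⟩
  have hm : ∀ a ha b hb, blkJ W E (m a ha) = blkJ W E (m b hb) ∧
      linJ W E (m a ha) (m b hb) = [(false, a, b)] := by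
    intro a ha b hb
    simp [blkJ, blk, linJ, lin, m, hW a ha, hW b hb]
  obtain ⟨P, Q, z, h, h0⟩ := sound hc hT (i0 := lj W E 2) (j0 := lj W E 2) (by
    rintro ⟨i, hi⟩ ⟨j, hj⟩ a ha
    have hw : ∃ x : JJ W E × JJ W E, blkJ W E x.1 = blkJ W E x.2 ∧
      linJ W E x.1 x.2 = [(false, wc)] := ⟨(lj W E 2, lj W E 2), rfl, rfl⟩
    simp only [linJ, lin] at ha
    split_ifs at ha with h1 h2 h3 h4 h5 h6 h7 h8
    · have k : ∀ i ∈ labs W E, i.1.1 ≤ 4 → i.1 ∈ W := by
        intro i hi h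
        rcases mem_labs.1 hi with ⟨v, hv, rfl⟩ | rfl | rfl | rfl | rfl | ⟨e, he, rfl⟩
        · exact hv
        all_goals simp [lb, sp] at h
      rw [List.mem_singleton.1 ha]
      exact ⟨(m _ (k i hi h1), m _ (k j hj h2)), hm _ (k i hi h1) _ (k j hj h2)⟩
    · simp at ha
    · rw [List.mem_singleton.1 ha]
      exact ⟨(m _ htW, m _ htW), hm _ htW _ htW⟩
    · rwa [List.mem_singleton.1 ha]
    · rwa [List.mem_singleton.1 ha]
    · rwa [List.mem_singleton.1 ha]
    · rw [List.mem_singleton.1 ha]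
      exact ⟨(lj W E 1, lj W E 1), rfl, rfl⟩
    · have h9 : i.1.1 = 9 := (Prod.ext_iff.1 h8).1
      rcases mem_labs.1 hi with ⟨v, hv, rfl⟩ | rfl | rfl | rfl | rfl | ⟨e, he, rfl⟩
      · simp at ha
      · simp [lb] at ha
      · simp [lb] at ha
      · simp [lb] at ha
      · simp [lb] at ha
      · exact ⟨(m _ (hE e he a ha).1, m _ (hE e he a ha).2),
          hm _ (hE e he a ha).1 _ (hE e he a ha).2⟩
    · simp at ha) rfl (by rw [bf_w]; norm_num)
  have k1 : P (lj W E 2) * Q (lj W E 2) = ev z [(false, wc)] := h _ _ rfl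
  have k2 : P (lj W E 0) * Q (lj W E 1) = ev z [(false, wc)] := h _ _ rfl
  have k3 : P (lj W E 1) * Q (lj W E 0) = ev z [(false, wc)] := h _ _ rfl
  have k4 : P (lj W E 0) * Q (lj W E 0) = ev z [(false, tv, tv)] := h _ _ rfl
  have k5 : P (lj W E 2) * Q (lj W E 3) = ev z [] := h _ _ rfl
  have k6 : Q (lj W E 3) = 0 := (mul_eq_zero.1 k5).resolve_left (left_ne_zero_of_mul h0)
  have k7 : ∀ e ∈ E, ev z e = 0 := by
    intro e he
    have : P ⟨(sp 9, e), mem_labs.2 (by simp [he])⟩ * Q (lj W E 3) = ev z e := h _ _ rfl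
    rw [← this, k6, mul_zero]
  have k8 : ∀ a ha b hb, P (m a ha) * Q (m b hb) = z (a, b) := by
    intro a ha b hb
    rw [h _ _ (hm a ha b hb).1, (hm a ha b hb).2]
    simp
  have k9 : P (m tv htW) * Q (m tv htW) ≠ 0 := by
    rw [k8 _ htW _ htW, show z (tv, tv) = ev z [(false, tv, tv)] by simp, ← k4]
    rw [k1] at h0
    exact mul_ne_zero (left_ne_zero_of_mul (k2 ▸ h0)) (right_ne_zero_of_mul (k3 ▸ h0))
  have hP := left_ne_zero_of_mul k9
  have hQ := right_ne_zero_of_mul k9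
  refine ⟨fun v => if hv : v ∈ W then P (m v hv) / P (m tv htW) else 0, by
    simp only [dif_pos htW, div_self hP], fun e he => ?_⟩
  have : ev (fun c => (P (m tv htW) * Q (m tv htW))⁻¹ * z c) e = 0 := by
    rw [ev_mul, k7 e he, mul_zero]
  refine Eq.trans (ev_congr (z := fun c : Mon =>
    (if hv : c.1 ∈ W then P (m c.1 hv) / P (m tv htW) else 0) *
    if hv : c.2 ∈ W then P (m c.2 hv) / P (m tv htW) else 0) fun a ha => ?_) this
  obtain ⟨h1, h2⟩ := hE e he a ha
  have h3 := k7 _ (hsym _ h2)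
  simp only [ev_cons, ev_nil, sgn_false, sgn_true, ← k8 _ htW _ h2, ← k8 _ h2 _ htW] at h3
  simp only [dif_pos h1, dif_pos h2]
  rw [show z a.2 = z (a.2.1, a.2.2) from rfl, ← k8 _ h1 _ h2]
  field_simp
  linear_combination (-P (m a.2.1 h1)) * h3

end Pool.Agent.Lib.NUC
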