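import Pool.Agent.Lib.NUC.Gad
import Pool.Agent.Lib.NUC.AlgD
import Pool.Agent.Lib.NUC.Defs
import Pool.Agent.Lib.MP_50cd9e_lc.Red
import Pool.Agent.Lib.helper82.Parse

namespace Pool.Agent.Lib.NUC

open Finset Pool.Agent.Lib.MP_50cd9e_lc Pool.Agent.Lib.helper82
open Pool.Agent.Lib.MP_3930bf_lc (Con Nm Atom allCons allCons_pt holds_iff Fm encFm)

instance decLL : DecidableEq (Lab × Lab) := instDecidableEqProd

def blkN (i : Lab) : ℕ := if i.1.1 ≤ 4 then 0 else if i.1.1 ≤ 6 then 1 else 2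

theorem blkN_iff (i j : Lab) : blkN i = blkN j ↔ blk i = blk j := by
  unfold blkN blk
  split_ifs <;> simp

def bfL (W : List Var) (l l' : Eqn) : List Bool :=
  l.flatMap fun a => l'.flatMap fun b => (n0 W a.2 b.2).map fun s => xor (xor a.1 b.1) s

def prs (I : List Lab) : List (Lab × Lab) := I.flatMap fun i => I.map fun j => (i, j)

def tauL (W : List Var) (I : List Lab) : List Bool :=
  (prs I).flatMap fun x => bfL W (lin x.1 x.2) (lin x.1 x.2)

def psiL (W : List Var) (I : List Lab) (x y : Lab × Lab) : List Bool :=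
  bfL W (lin x.1 x.2) (lin y.1 y.2) ++ if blkN x.1 = blkN x.2 then [] else
    bfL W (lin x.1 y.2) (lin y.1 x.2) ++ if x = y then tauL W I else []

def trL (W : List Var) (I : List Lab) : List Bool := (prs I).flatMap fun x => psiL W I x x

def ent (W : List Var) (I : List Lab) (a b c : Lab × Lab) : ℚ :=
  if (a.2, b.2) = (lb 7, lb 7) then val ℚ (psiL W I (a.1, b.1) c) else 0

theorem val_cast (l : List Bool) : ((val ℚ l : ℚ) : ℝ) = val ℝ l := by
  induction l with
  | nil => simp
  | cons b l ih => cases b <;> simp [ih]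

theorem val_xor (b : Bool) (l : List Bool) : val ℝ (l.map fun s => xor b s) = sgn b * val ℝ l := by
  induction l with
  | nil => simp
  | cons c l ih =>
    simp only [List.map_cons, val_cons, ih]
    cases b <;> cases c <;> simp <;> ring

theorem val_bfL (W : List Var) (l l' : Eqn) : val ℝ (bfL W l l') = bf (N0 W) l l' := by
  simp only [bfL, val_flatMap, val_xor, bf, N0]
  congr 1
  refine List.map_congr_left fun a _ => ?_
  congr 1
  refine List.map_congr_left fun b _ => ?_
  cases a.1 <;> cases b.1 <;> simp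

variable {W : List Var} {E : List Eqn}

theorem sum_JJ (g : Lab → ℝ) : ∑ i : JJ W E, g i.1 = ((labs W E).map g).sum := by
  rw [← List.sum_toFinset _ (show (labs W E).Nodup from List.nodup_dedup _)]
  exact (Finset.sum_subtype _ (fun x => List.mem_toFinset) g).symm

theorem sum_prs (g : Lab × Lab → ℝ) :
    ((prs (labs W E)).map g).sum = ∑ i : JJ W E, ∑ j : JJ W E, g (i.1, j.1) := by
  have h : ∀ l l' : List Lab, ((l.flatMap fun i => l'.map fun j => (i, j)).map g).sum =
      (l.map fun i => (l'.map fun j => g (i, j)).sum).sum := by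
    intro l l'
    induction l with
    | nil => rfl
    | cons a l ih => simp [ih, Function.comp_def]
  rw [prs, h, ← sum_JJ]
  exact sum_congr rfl fun i _ => (sum_JJ fun j => g (i.1, j)).symm

theorem val_psiL (i j i' j' : JJ W E) : val ℝ (psiL W (labs W E) (i.1, j.1) (i'.1, j'.1)) =
    Psi (blkJ W E) (linJ W E) (N0 W) i j i' j' := by
  have h : val ℝ (tauL W (labs W E)) = tau (linJ W E) (N0 W) := by
    simp only [tauL, val_flatMap, val_bfL, sum_prs]
    rfl
  simp only [psiL, Psi, val_append, val_bfL, blkN_iff, Prod.mk.injEq, Subtype.val_inj]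
  congr 1
  by_cases h1 : blk i.1 = blk j.1
  · rw [if_pos h1, if_pos (show blkJ W E i = blkJ W E j from h1), val_nil]
  · rw [if_neg h1, if_neg (show ¬ blkJ W E i = blkJ W E j from h1), val_append, val_bfL]
    congr 1
    split_ifs
    · exact h
    · rfl

theorem val_trL : ((val ℚ (trL W (labs W E)) : ℚ) : ℝ) =
    trc (Psi (blkJ W E) (linJ W E) (N0 W)) := by
  simp only [val_cast, trL, val_flatMap, sum_prs, val_psiL]
  rfl

theorem mem_prs {I : List Lab} {x : Lab × Lab} : x ∈ prs I ↔ x.1 ∈ I ∧ x.2 ∈ I :=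
  List.mem_product

noncomputable def eqv (W : List Var) (E : List Eqn) :
    Fin (prs (labs W E)).length ≃ JJ W E × JJ W E :=
  Equiv.ofBijective (fun k => (⟨(prs (labs W E))[k].1, (mem_prs.1 (List.getElem_mem _)).1⟩,
    ⟨(prs (labs W E))[k].2, (mem_prs.1 (List.getElem_mem _)).2⟩)) (by
    have hn : (prs (labs W E)).Nodup := List.Nodup.product (List.nodup_dedup _) (List.nodup_dedup _)
    constructor
    · intro k k' h
      rw [Prod.ext_iff, Subtype.ext_iff, Subtype.ext_iff] at h
      exact Fin.ext ((List.Nodup.getElem_inj_iff hn).1 (Prod.ext h.1 h.2))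
    · rintro ⟨i, j⟩
      obtain ⟨k, hk, h⟩ := List.getElem_of_mem ((mem_prs (x := (i.1, j.1))).2 ⟨i.2, j.2⟩)
      exact ⟨⟨k, hk⟩, Prod.ext (Subtype.ext (congrArg Prod.fst h))
        (Subtype.ext (congrArg Prod.snd h))⟩)

def mkI (W : List Var) (E : List Eqn) (hW : ∀ v ∈ W, v.1 ≤ 4) (ht : tv ∈ W) : Inst where
  d := (prs (labs W E)).length
  T := fun a b c => ent W (labs W E) (prs (labs W E))[a] (prs (labs W E))[b] (prs (labs W E))[c]
  σ := val ℚ (trL W (labs W E))
  pos := by
    have := trc_pos (E := E) hW ht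
    rw [← val_trL] at this
    exact_mod_cast this

theorem nuc_mkI (hW : ∀ v ∈ W, v.1 ≤ 4) (ht : tv ∈ W) : nucNorm (mkI W E hW ht) =
    sInf (decs (cube (eqv W E) (lj W E 2) (Psi (blkJ W E) (linJ W E) (N0 W)))) := by
  have : cube (eqv W E) (lj W E 2) (Psi (blkJ W E) (linJ W E) (N0 W)) =
      fun a b c => (((mkI W E hW ht).T a b c : ℚ) : ℝ) := by
    funext a b c
    simp only [cube, ← val_psiL, mkI, ent, Prod.mk.injEq, Subtype.ext_iff]
    by_cases h : (prs (labs W E))[a].2 = lb 7 ∧ (prs (labs W E))[b].2 = lb 7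
    · rw [if_pos h, if_pos (by exact h), val_cast]
      rfl
    · rw [if_neg h, if_neg (by exact h), Rat.cast_zero]
  rw [this]
  rfl

theorem mkI_iff (hW : ∀ v ∈ W, v.1 ≤ 4) (ht : tv ∈ W) :
    nucNorm (mkI W E hW ht) ≤ (mkI W E hW ht).σ ↔
      sInf (decs (cube (eqv W E) (lj W E 2) (Psi (blkJ W E) (linJ W E) (N0 W)))) ≤
        trc (Psi (blkJ W E) (linJ W E) (N0 W)) := by
  rw [nuc_mkI, ← val_trL]
  rfl

theorem mkI_sound (hW : ∀ v ∈ W, v.1 ≤ 4) (ht : tv ∈ W) (hE : Over (fun v => v ∈ W) E)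
    (hsym : ∀ v ∈ W, [(false, tv, v), (true, v, tv)] ∈ E)
    (h : nucNorm (mkI W E hW ht) ≤ (mkI W E hW ht).σ) :
    ∃ w : Var → ℝ, w tv = 1 ∧ ∀ e ∈ E, evq w e = 0 := by
  obtain ⟨c, p, q, hc, hT⟩ := sep_of_rep _ _ (rep_of_le (ι := Fin _) (Fintype.card_fin _).ge
    (trc_pos hW ht) ((mkI_iff hW ht).1 h))
  exact con_sound hW ht hE hsym hc hT

theorem mkI_complete (hW : ∀ v ∈ W, v.1 ≤ 4) (ht : tv ∈ W) (hE : Over (fun v => v ∈ W) E)
    {w : Var → ℝ} (h1 : w tv = 1) (h2 : ∀ v ∈ W, w v ^ 2 ≤ 1) (h3 : ∀ e ∈ E, evq w e = 0) :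
    nucNorm (mkI W E hW ht) ≤ (mkI W E hW ht).σ :=
  (mkI_iff hW ht).2 (nuc_le_of_sep _ _ (N0_good hW ht hE h1 h2 h3).1)

def E3 (cs : List Con) : List Eqn :=
  (U3 cs).map (fun v => [(false, tv, v), (true, v, tv)]) ++ Q3 cs

def instN (cs : List Con) : Inst := mkI (U3 cs) (E3 cs) (fun _ => tag_U3) List.mem_cons_self

theorem instN_spec (cs : List Con) :
    nucNorm (instN cs) ≤ (instN cs).σ ↔ ∃ w, ∀ c ∈ cs, MP_3930bf_lc.Sat w c := by
  have ht : tv ∈ U3 cs := List.mem_cons_self
  have hE : Over (fun v => v ∈ U3 cs) (E3 cs) := by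
    refine Over.append (fun e he m hm => ?_) (over_Q3 cs)
    obtain ⟨v, hv, rfl⟩ := List.mem_map.1 he
    simp only [List.mem_cons, List.not_mem_nil, or_false] at hm
    rcases hm with rfl | rfl
    exacts [⟨ht, hv⟩, ⟨hv, ht⟩]
  constructor
  · intro h
    obtain ⟨w, h1, h2⟩ := mkI_sound (fun _ => tag_U3) ht hE
      (fun v hv => List.mem_append_left _ (List.mem_map_of_mem hv)) h
    exact sat_of_Q3 h1 fun e he => h2 e (List.mem_append_right _ he)
  · intro h
    obtain ⟨w, h1, h2, h3⟩ := bounded_sol h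
    refine mkI_complete (fun _ => tag_U3) ht hE h1 h2
      (List.forall_mem_append.2 ⟨fun e he => ?_, h3⟩)
    obtain ⟨v, hv, rfl⟩ := List.mem_map.1 he
    simp [mono, mul_comm]

/-! polynomial time -/

instance : Inhabited Lab := ⟨lb 5⟩
instance : Inhabited (Lab × Lab) := ⟨(lb 5, lb 5)⟩

section
variable {α β : Type} [Enc α] [Enc β]

theorem sub_pt {f g : α → List Bool} (hf : PT f) (hg : PT g) :
    PT fun a => (f a).length - (g a).length := by
  have h := PT.foldl_add (h := fun _ (s : List Bool) (_ : Bool) => s.tail) hg hf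
    (PT.tail (PT.fst PT.snd')) (fun _ => 0) (Bd.const 0) fun _ s _ _ => sz_tail_le s
  refine (PT.length h).congr fun a => ?_
  generalize f a = s
  induction g a generalizing s with
  | nil => simp
  | cons b l ih => rw [List.foldl_cons, ih, List.length_tail, List.length_cons]; omega

theorem val_pt {f : α → List Bool} (hf : PT f) : PT fun a => val ℚ (f a) := by
  have h1 := PT.filter (P := fun _ (b : Bool) => !b) hf (PT.not PT.snd')
  have h2 := PT.filter (P := fun _ (b : Bool) => b) hf PT.snd'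
  have key : ∀ l : List Bool, val ℚ l =
      ((((l.filter fun b => !b).length : ℤ) - (l.filter fun b => b).length : ℤ) : ℚ) := by
    intro l
    induction l with
    | nil => simp
    | cons b l ih => cases b <;> simp [ih] <;> ring
  refine PTR.congr (PT.pair (PT.pair (sub_pt h1 h2) (sub_pt h2 h1)) (PT.const (1 : ℕ))) fun a => ?_
  beta_reduce
  rw [key]
  change _ = enc (((Rat.num _).toNat, (-Rat.num _).toNat), Rat.den _)
  rw [Rat.num_intCast, Rat.den_intCast]
  congr 3 <;> omega

theorem lin_pt {i j : α → Lab} (hi : PT i) (hj : PT j) : PT fun a => lin (i a) (j a) := by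
  have h1 := PT.fst (PT.fst hi)
  have h2 := PT.fst (PT.fst hj)
  have h := PT.pair h1 h2
  exact PT.ite (PT.le h1 (PT.const 4)) (PT.ite (PT.le h2 (PT.const 4))
    (PT.cons (mon_pt false (PT.fst hi) (PT.fst hj)) (PT.const [])) (PT.const []))
    (PT.iteEq h (PT.const _) (PT.const _) (PT.iteEq h (PT.const _) (PT.const _)
    (PT.iteEq h (PT.const _) (PT.const _) (PT.iteEq h (PT.const _) (PT.const _)
    (PT.iteEq h (PT.const _) (PT.const _) (PT.iteEq h (PT.const _) (PT.snd hi) (PT.const _)))))))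

theorem blkN_pt {i : α → Lab} (hi : PT i) : PT fun a => blkN (i a) :=
  PT.ite (PT.le (PT.fst (PT.fst hi)) (PT.const 4)) (PT.const _)
    (PT.ite (PT.le (PT.fst (PT.fst hi)) (PT.const 6)) (PT.const _) (PT.const _))

theorem kl_pt : PT kl :=
  PT.flatMap (F := fun (W : List Var) (_ : Var) => W.flatMap fun _ =>
    [false, false, false, false, false, false]) PT.id
    (PT.flatMap (F := fun (_ : List Var × Var) (_ : Var) =>
      [false, false, false, false, false, false]) PT.fst' (PT.const _))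

theorem mem_pt {x : α → Var} {W : α → List Var} (hx : PT x) (hW : PT W) :
    PT fun a => decide (x a ∈ W a) := isIn_pt hx hW

theorem n0_pt {W : α → List Var} {c c' : α → Mon} (hW : PT W) (hc : PT c) (hc' : PT c') :
    PT fun a => n0 (W a) (c a) (c' a) :=
  PT.iteEq hc hc' (PT.iteEq hc (PT.const _) (PT.const _) (PT.iteEq hc (PT.const _) (PT.const _)
    (PT.ite (mem_pt (PT.fst hc) hW) (PT.ite (mem_pt (PT.snd hc) hW) (PT.comp kl_pt hW)
      (PT.const _)) (PT.const _))))
    (PT.iteEq (PT.pair hc hc') (PT.const _) (PT.const _)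
      (PT.iteEq (PT.pair hc hc') (PT.const _) (PT.const _) (PT.const _)))

theorem xor_pt {f g : α → Bool} (hf : PT f) (hg : PT g) : PT fun a => xor (f a) (g a) :=
  (PT.cond hf (PT.not hg) hg).congr fun a => by cases f a <;> simp

theorem bfL_pt {W : α → List Var} {l l' : α → Eqn} (hW : PT W) (hl : PT l) (hl' : PT l') :
    PT fun a => bfL (W a) (l a) (l' a) := by
  unfold bfL
  refine PT.flatMap (F := fun a (x : Bool × Var × Var) => (l' a).flatMap
    fun b : Bool × Var × Var => (n0 (W a) x.2 b.2).map fun s => xor (xor x.1 b.1) s) hl ?_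
  refine PT.flatMap (F := fun (p : α × Bool × Var × Var) (b : Bool × Var × Var) =>
    (n0 (W p.1) p.2.2 b.2).map fun s => xor (xor p.2.1 b.1) s) (PT.comp hl' PT.fst') ?_
  exact PT.map (F := fun (p : (α × Bool × Var × Var) × Bool × Var × Var) (s : Bool) =>
    xor (xor p.1.2.1 p.2.1) s)
    (n0_pt (PT.comp hW (PT.fst PT.fst')) (PT.snd (PT.snd PT.fst')) (PT.snd PT.snd'))
    (xor_pt (xor_pt (PT.fst (PT.snd (PT.fst PT.fst'))) (PT.fst (PT.snd PT.fst'))) PT.snd')

theorem prs_pt : PT prs :=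
  PT.flatMap (F := fun (I : List Lab) (i : Lab) => I.map fun j => (i, j)) PT.id
    (PT.map (F := fun (x : List Lab × Lab) (j : Lab) => (x.2, j)) PT.fst'
      (PT.pair (PT.snd PT.fst') PT.snd'))

theorem psiL_pt {W : α → List Var} {I : α → List Lab} {x y : α → Lab × Lab} (hW : PT W)
    (hI : PT I) (hx : PT x) (hy : PT y) : PT fun a => psiL (W a) (I a) (x a) (y a) := by
  have ht : PT fun a => tauL (W a) (I a) :=
    PT.flatMap (F := fun a (x : Lab × Lab) => bfL (W a) (lin x.1 x.2) (lin x.1 x.2))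
      (PT.comp prs_pt hI) (bfL_pt (PT.comp hW PT.fst') (lin_pt (PT.fst PT.snd') (PT.snd PT.snd'))
        (lin_pt (PT.fst PT.snd') (PT.snd PT.snd')))
  exact PT.append (bfL_pt hW (lin_pt (PT.fst hx) (PT.snd hx)) (lin_pt (PT.fst hy) (PT.snd hy)))
    (PT.iteEq (blkN_pt (PT.fst hx)) (blkN_pt (PT.snd hx)) (PT.const _)
      (PT.append (bfL_pt hW (lin_pt (PT.fst hx) (PT.snd hy)) (lin_pt (PT.fst hy) (PT.snd hx)))
        (PT.iteEq hx hy ht (PT.const _))))

theorem ent_pt {W : α → List Var} {I : α → List Lab} {x y z : α → Lab × Lab} (hW : PT W)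
    (hI : PT I) (hx : PT x) (hy : PT y) (hz : PT z) :
    PT fun a => ent (W a) (I a) (x a) (y a) (z a) :=
  PT.iteEq (PT.pair (PT.snd hx) (PT.snd hy)) (PT.const _)
    (val_pt (psiL_pt hW hI (PT.pair (PT.fst hx) (PT.fst hy)) hz)) (PT.const _)

end

def tableN (p : List Var × List Lab) : ℕ × List (List (List ℚ)) × ℚ :=
  ((prs p.2).length, (prs p.2).map fun a => (prs p.2).map fun b => (prs p.2).map fun c =>
    ent p.1 p.2 a b c, val ℚ (trL p.1 p.2))

set_option synthInstance.maxSize 2048 in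
theorem tableN_pt : PT tableN := by
  have hi : PT fun p : List Var × List Lab => prs p.2 := PT.comp prs_pt PT.snd'
  refine PT.pair (PT.length hi) (PT.pair ?_ (val_pt (PT.flatMap
    (F := fun (p : List Var × List Lab) (x : Lab × Lab) => psiL p.1 p.2 x x) hi
    (psiL_pt (PT.fst PT.fst') (PT.snd PT.fst') PT.snd' PT.snd'))))
  refine PT.map (F := fun (p : List Var × List Lab) (a : Lab × Lab) =>
    (prs p.2).map fun b => (prs p.2).map fun c => ent p.1 p.2 a b c) hi ?_
  refine PT.map (F := fun (p : (List Var × List Lab) × Lab × Lab) (b : Lab × Lab) =>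
    (prs p.1.2).map fun c => ent p.1.1 p.1.2 p.2 b c) (PT.comp prs_pt (PT.snd PT.fst')) ?_
  exact PT.map (F := fun (p : ((List Var × List Lab) × Lab × Lab) × Lab × Lab) (c : Lab × Lab) =>
    ent p.1.1.1 p.1.1.2 p.1.2 p.2 c) (PT.comp prs_pt (PT.snd (PT.fst PT.fst')))
    (ent_pt (PT.fst (PT.fst (PT.fst PT.fst'))) (PT.snd (PT.fst (PT.fst PT.fst')))
      (PT.snd (PT.fst PT.fst')) (PT.snd PT.fst') PT.snd')

theorem encInst_mkI (hW : ∀ v ∈ W, v.1 ≤ 4) (ht : tv ∈ W) :
    encInst (mkI W E hW ht) = enc (tableN (W, labs W E)) := by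
  unfold encInst tableN
  congr 3
  have H : ∀ (L : List (Lab × Lab)) (g : Lab × Lab → Lab × Lab → Lab × Lab → ℚ),
      (List.ofFn fun i : Fin L.length => List.ofFn fun j : Fin L.length =>
        List.ofFn fun k : Fin L.length => g L[i] L[j] L[k]) =
      L.map fun a => L.map fun b => L.map fun c => g a b c := by
    intro L g
    have h0 : ∀ a b, (List.ofFn fun k : Fin L.length => g a b L[k.1]) =
        L.map fun c => g a b c := fun a b => List.ofFn_getElem_eq_map _ _
    have h1 : ∀ a, (List.ofFn fun j : Fin L.length => L.map fun c => g a L[j.1] c) =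
        L.map fun b => L.map fun c => g a b c :=
      fun a => List.ofFn_getElem_eq_map _ fun b => L.map fun c => g a b c
    simp only [Fin.getElem_fin, h0, h1]
    exact List.ofFn_getElem_eq_map _ fun a => L.map fun b => L.map fun c => g a b c
  exact H (prs (labs W E)) (ent W (labs W E))

theorem U3_pt : PT U3 := PT.cons (PT.const _) (PT.append (cvars_pt 2 L1_pt) xvars_pt)

theorem E3_pt : PT E3 := by
  refine PT.append (PT.map (F := fun _ (v : Var) => ([(false, tv, v), (true, v, tv)] : Eqn)) U3_pt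
    (PT.cons (mon_pt false (PT.const _) PT.snd') (PT.cons (mon_pt true PT.snd' (PT.const _))
      (PT.const [])))) (PT.append (PT.cons (PT.const _) ?_)
      (eqs_pt (cv_pt 2 (ones_pt L1_pt)) PT.id))
  refine PT.map (F := fun _ (s : List Bool) =>
    ([(false, cv 2 (true :: s), tv), (true, cv 2 s, cv 2 s)] : Eqn)) (steps_pt L1_pt) ?_
  exact PT.cons (mon_pt false (cv_pt 2 (PT.cons (PT.const true) PT.snd')) (PT.const _))
    (PT.cons (mon_pt true (cv_pt 2 PT.snd') (cv_pt 2 PT.snd')) (PT.const []))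

theorem labs_pt : PT fun cs => labs (U3 cs) (E3 cs) :=
  PT.dedup (PT.append (PT.map (F := fun _ (v : Var) => ((v, []) : Lab)) U3_pt
    (PT.pair PT.snd' (PT.const _))) (PT.append (PT.const _)
    (PT.map (F := fun _ (e : Eqn) => ((sp 9, e) : Lab)) E3_pt (PT.pair (PT.const _) PT.snd'))))

theorem instN_ptr : PTR encFm fun φ : Fm => encInst (instN (allCons φ.code)) :=
  (ptr_code (PT.comp (G := fun cs => tableN (U3 cs, labs (U3 cs) (E3 cs)))
    (PT.comp tableN_pt (PT.pair U3_pt labs_pt)) allCons_pt)).congr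
    fun _ => (encInst_mkI _ _).symm

theorem instN_iff (φ : Fm) :
    nucNorm (instN (allCons φ.code)) ≤ (instN (allCons φ.code)).σ ↔ ∃ y, φ.Holds y := by
  rw [instN_spec, holds_iff]

end Pool.Agent.Lib.NUC
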