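import Pool.Agent.Lib.NUC.Hard
import Pool.Agent.Lib.MP_50cd9e_lc.Mem

namespace Pool.Agent.Lib.NUC

open Pool.Agent.Lib.MP_50cd9e_lc Pool.Agent.Lib.helper82
open Pool.Agent.Lib.MP_3930bf_lc (allCons Tm Fm encFm)

def xw (g r i : ℕ) : Tm := .var (tag false (g, r, i))
def leFm (s t : Tm) : Fm := .not (.lt t s)
def rs (R : List (List (List ℚ))) : List ℕ := (idxd ((0, 0, 0, 0) :: ents R)).map Prod.fst

def normF (g : ℕ) (R : List (List (List ℚ))) (r : ℕ) : Fm :=
  leFm (sumTm (idxd R) fun e => .mul (xw g r e.1) (xw g r e.1)) .one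

def termT (e : Ent) (r : ℕ) : Tm :=
  .mul (.mul (.mul (xw 3 r 0) (xw 0 r e.1)) (xw 1 r e.2.1)) (xw 2 r e.2.2.1)

def memN (D : Dat) : Fm :=
  .and (andFm (rs D.2.1) fun r => .and (leFm .zero (xw 3 r 0))
      (.and (normF 0 D.2.1 r) (.and (normF 1 D.2.1 r) (normF 2 D.2.1 r))))
    (.and (.and (ratFm D.2.2) (andFm (ents D.2.1) fun e => ratFm e.2.2.2))
      (.and (leFm (sumTm (rs D.2.1) fun r => xw 3 r 0) (tq D.2.2))
        (andFm (ents D.2.1) fun e => .eq (tq e.2.2.2) (sumTm (rs D.2.1) (termT e)))))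

section
variable {α β : Type} [Enc α] [Enc β]

theorem ptm_sum [Inhabited β] {l : α → List β} {g : α → β → Tm} (hl : PT l)
    (hg : PTm fun p : α × β => g p.1 p.2) : PTm fun a => sumTm (l a) (g a) :=
  (PT.append (PT.flatMap (F := fun a b => 2 :: (g a b).code) hl (PT.cons (PT.const 2) hg))
    (PT.const [0])).congr fun _ => (code_sumTm _ _).symm

theorem pfm_all [Inhabited β] {l : α → List β} {g : α → β → Fm} (hl : PT l)
    (hg : PFm fun p : α × β => g p.1 p.2) : PFm fun a => andFm (l a) (g a) :=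
  (PT.append (PT.flatMap (F := fun a b => 7 :: (g a b).code) hl (PT.cons (PT.const 7) hg))
    (PT.const [4, 0, 0])).congr fun _ => (code_andFm _ _).symm

theorem pfm_le {s t : α → Tm} (hs : PTm s) (ht : PTm t) : PFm fun a => leFm (s a) (t a) :=
  PT.cons (PT.const 6) (PFm.lt ht hs)

theorem ptm_xw (g : ℕ) {r i : α → ℕ} (hr : PT r) (hi : PT i) : PTm fun a => xw g (r a) (i a) :=
  PTm.var (PT.tag false (PT.pair (PT.const g) (PT.pair hr hi)))

end

theorem rs_pt : PT rs :=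
  PT.map (F := fun _ (p : ℕ × Ent) => p.1) (idxd_pt (PT.cons (PT.const _) ents_pt)) (PT.fst PT.snd')

theorem memN_pt : PFm memN := by
  have hR : PT fun D : Dat => D.2.1 := PT.fst PT.snd'
  have hs : PT fun D : Dat => D.2.2 := PT.snd PT.snd'
  have hE : PT fun D : Dat => ents D.2.1 := PT.comp (G := ents) ents_pt hR
  have hr : PT fun D : Dat => rs D.2.1 := PT.comp (G := rs) rs_pt hR
  have hn : ∀ g, PFm fun p : Dat × ℕ => normF g p.1.2.1 p.2 := fun g =>
    pfm_le (ptm_sum (g := fun (p : Dat × ℕ) (e : ℕ × List (List ℚ)) =>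
      .mul (xw g p.2 e.1) (xw g p.2 e.1)) (idxd_pt (PT.fst (PT.snd PT.fst')))
      (PTm.mul (ptm_xw g (PT.snd PT.fst') (PT.fst PT.snd'))
        (ptm_xw g (PT.snd PT.fst') (PT.fst PT.snd')))) (PTm.const _)
  have ht : PTm fun p : (Dat × Ent) × ℕ => termT p.1.2 p.2 :=
    PTm.mul (PTm.mul (PTm.mul (ptm_xw 3 PT.snd' (PT.const 0))
      (ptm_xw 0 PT.snd' (PT.fst (PT.snd PT.fst'))))
      (ptm_xw 1 PT.snd' (PT.fst (PT.snd (PT.snd PT.fst')))))
      (ptm_xw 2 PT.snd' (PT.fst (PT.snd (PT.snd (PT.snd PT.fst')))))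
  refine PFm.and (pfm_all (g := fun (D : Dat) (r : ℕ) => .and (leFm .zero (xw 3 r 0))
      (.and (normF 0 D.2.1 r) (.and (normF 1 D.2.1 r) (normF 2 D.2.1 r)))) hr
      (PFm.and (pfm_le (PTm.const _) (ptm_xw 3 PT.snd' (PT.const 0)))
        (PFm.and (hn 0) (PFm.and (hn 1) (hn 2)))))
    (PFm.and (PFm.and (PFm.rat hs) (PFm.all hE (PFm.rat (PT.snd (PT.snd PT.snd')))))
      (PFm.and (pfm_le (PTm.sum hr (ptm_xw 3 PT.id (PT.const 0))) (PTm.tq hs)) ?_))
  exact pfm_all (g := fun (D : Dat) (e : Ent) => .eq (tq e.2.2.2) (sumTm (rs D.2.1) (termT e))) hE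
    (PFm.eq (PTm.tq (PT.snd (PT.snd (PT.snd PT.snd'))))
      (ptm_sum (g := fun (p : Dat × Ent) (r : ℕ) => termT p.2 r)
        (PT.comp (G := fun D : Dat => rs D.2.1) hr PT.fst') ht))

theorem rs_eq (R : List (List (List ℚ))) :
    rs R = List.ofFn fun r : Fin ((ents R).length + 1) => (r : ℕ) := by
  have h := idxd_ofFn (((0, 0, 0, 0) : Ent) :: ents R).get
  rw [List.ofFn_get] at h
  rw [rs, h, List.map_ofFn]
  rfl

theorem length_ents (I : Inst) : (ents (dat I).2.1).length = I.d ^ 3 := by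
  have h := sum_ents I fun _ => 1
  simp only [List.map_const', List.sum_replicate, Finset.sum_const, Finset.card_univ,
    Fintype.card_fin, nsmul_eq_mul, mul_one] at h
  have : (((ents (dat I).2.1).length : ℕ) : ℝ) = ((I.d ^ 3 : ℕ) : ℝ) := by
    rw [h]
    push_cast
    ring
  exact_mod_cast this

theorem forall_ents (I : Inst) {p : Ent → Prop} : (∀ e ∈ ents (dat I).2.1, p e) ↔
    ∀ i j k : Fin I.d, p ((i : ℕ), (j : ℕ), (k : ℕ), I.T i j k) := by
  refine ⟨fun h i j k => h _ (mem_ents I i j k), fun h e he => ?_⟩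
  simp only [ents, dat, idxd_ofFn, List.mem_flatMap, List.mem_ofFn, List.mem_map] at he
  obtain ⟨_, ⟨i, rfl⟩, c, hc, x, hx, rfl⟩ := he
  simp only [idxd_ofFn, List.mem_ofFn] at hc
  obtain ⟨j, rfl⟩ := hc
  simp only [idxd_ofFn, List.mem_ofFn] at hx
  obtain ⟨k, rfl⟩ := hx
  exact h i j k

theorem holds_normF (I : Inst) (y : ℕ → ℝ) (g r : ℕ) : (normF g (dat I).2.1 r).Holds y ↔
    ∑ i : Fin I.d, y (tag false (g, r, (i : ℕ))) ^ 2 ≤ 1 := by
  simp only [normF, leFm, Fm.Holds, eval_sumTm, dat, idxd_ofFn, List.map_ofFn, List.sum_ofFn,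
    Tm.eval, Function.comp, xw, sq, not_lt]

theorem holds_memN (I : Inst) : nucNorm I ≤ I.σ ↔ ∃ y, (memN (dat I)).Holds y := by
  have hσ : (0 : ℝ) < I.σ := by exact_mod_cast I.pos
  have h0 : nucNorm I ≤ I.σ ↔ Rep (Fin ((ents (dat I).2.1).length + 1))
      (fun i j k => (I.T i j k : ℝ)) I.σ :=
    ⟨rep_of_le (by simp [length_ents]) hσ, Rep.le⟩
  rw [h0]
  simp only [memN, Fm.Holds, holds_normF, holds_andFm, holds_ratFm, forall_ents, leFm, eval_sumTm,
    rs_eq, List.forall_mem_ofFn_iff, List.map_ofFn, List.sum_ofFn, Tm.eval, Function.comp, xw, tq,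
    termT, not_lt]
  constructor
  · rintro ⟨l, x, y, z, h1, h2, h3⟩
    let u : ℕ × ℕ × ℕ → ℝ := fun p => if hr : p.2.1 < (ents (dat I).2.1).length + 1 then
      if p.1 = 3 then l ⟨p.2.1, hr⟩ else if h : p.2.2 < I.d then
        (if p.1 = 0 then x else if p.1 = 1 then y else z) ⟨p.2.1, hr⟩ ⟨p.2.2, h⟩ else 0 else 0
    let a : ℕ → ℝ := Function.extend (tag false) u
      (Function.extend (tag true) (fun q : ℚ => (q : ℝ)) 0)
    have ha0 : ∀ p : ℕ × ℕ × ℕ, a (tag false p) = u p := fun p =>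
      (tag_injective false).extend_apply _ _ p
    have ha1 : ∀ q : ℚ, a (tag true q) = q := fun q => by
      simp only [a]
      rw [Function.extend_apply' _ _ _ (by rintro ⟨v, hv⟩; exact tag_ne v q hv),
        (tag_injective true).extend_apply]
    have e0 : ∀ (r : Fin _) (i : Fin I.d), a (tag false (0, (r : ℕ), (i : ℕ))) = x r i :=
      fun r i => by simp [ha0, u, r.is_le]
    have e1 : ∀ (r : Fin _) (i : Fin I.d), a (tag false (1, (r : ℕ), (i : ℕ))) = y r i :=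
      fun r i => by simp [ha0, u, r.is_le]
    have e2 : ∀ (r : Fin _) (i : Fin I.d), a (tag false (2, (r : ℕ), (i : ℕ))) = z r i :=
      fun r i => by simp [ha0, u, r.is_le]
    have e3 : ∀ r : Fin _, a (tag false (3, (r : ℕ), 0)) = l r :=
      fun r => by simp [ha0, u, r.is_le]
    refine ⟨a, ?_⟩
    simp only [e0, e1, e2, e3, ha1, implies_true, true_and]
    exact ⟨h1, h2, h3⟩
  · rintro ⟨y, h1, ⟨h2, h3⟩, h4, h5⟩
    refine ⟨fun r => y (tag false (3, (r : ℕ), 0)), fun r i => y (tag false (0, (r : ℕ), (i : ℕ))),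
      fun r i => y (tag false (1, (r : ℕ), (i : ℕ))),
      fun r i => y (tag false (2, (r : ℕ), (i : ℕ))), h1, ?_, fun i j k => ?_⟩
    · rw [h2] at h4
      exact h4
    · rw [← h5, h3]

theorem nuc_mem : InExistsR encInst fun I => nucNorm I ≤ I.σ :=
  ⟨fun I => memN (dat I), PTR.toTM2 (ptr_dat memN_pt), holds_memN⟩

theorem nuc_hard {α : Type} (ea : α → List Bool) (A : α → Prop) (h : InExistsR ea A) :
    Red ea A encInst fun I => nucNorm I ≤ I.σ := by
  obtain ⟨f, hf, hA⟩ := h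
  exact ⟨fun a => instN (allCons (f a).code),
    tm2_comp (G := fun φ : Fm => instN (allCons φ.code)) hf (PTR.toTM2 instN_ptr),
    fun a => (hA a).trans (instN_iff (f a)).symm⟩

end Pool.Agent.Lib.NUC
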