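import Pool.Agent.Lib.MP_50cd9e_lc.Sys

namespace Pool.Agent.Lib.NUC

open Finset Pool.Agent.Lib.MP_50cd9e_lc

section
variable {X : Type}

def op (v : X → ℝ) : X → X → ℝ := fun i k => v i * v k

def PosC (X : Type) : AddSubmonoid (X → X → ℝ) := AddSubmonoid.closure (Set.range op)

def tens (A B : X → X → ℝ) : X → X → X → X → ℝ := fun i j i' j' => A i i' * B j j'

def SepC (X : Type) : AddSubmonoid (X → X → X → X → ℝ) :=
  AddSubmonoid.closure {T | ∃ p q : X → ℝ, T = tens (op p) (op q)}

theorem op_pos (v : X → ℝ) : op v ∈ PosC X := AddSubmonoid.subset_closure ⟨v, rfl⟩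

theorem op_sep (p q : X → ℝ) : tens (op p) (op q) ∈ SepC X :=
  AddSubmonoid.subset_closure ⟨p, q, rfl⟩

theorem smul_op {c : ℝ} (hc : 0 ≤ c) (v : X → ℝ) : c • op v = op fun i => √c * v i := by
  funext i k
  have := Real.mul_self_sqrt hc
  simp only [op, Pi.smul_apply, smul_eq_mul]
  linear_combination (-(v i * v k)) * this

theorem smul_pos {c : ℝ} (hc : 0 ≤ c) {A : X → X → ℝ} (hA : A ∈ PosC X) : c • A ∈ PosC X := by
  induction hA using AddSubmonoid.closure_induction with
  | mem A h =>
    obtain ⟨v, rfl⟩ := h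
    rw [smul_op hc]
    exact op_pos _
  | zero => rw [smul_zero]; exact zero_mem _
  | add A B _ _ h h' => rw [smul_add]; exact add_mem h h'

theorem tens_sep {A B : X → X → ℝ} (hA : A ∈ PosC X) (hB : B ∈ PosC X) : tens A B ∈ SepC X := by
  induction hA using AddSubmonoid.closure_induction with
  | mem A h =>
    obtain ⟨v, rfl⟩ := h
    induction hB using AddSubmonoid.closure_induction with
    | mem B h =>
      obtain ⟨u, rfl⟩ := h
      exact op_sep _ _
    | zero =>
      have : tens (op v) 0 = 0 := by funext i j i' j'; simp [tens]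
      rw [this]; exact zero_mem _
    | add B B' _ _ h h' =>
      have : tens (op v) (B + B') = tens (op v) B + tens (op v) B' := by
        funext i j i' j'; simp [tens, mul_add]
      rw [this]; exact add_mem h h'
  | zero =>
    have : tens 0 B = 0 := by funext i j i' j'; simp [tens]
    rw [this]; exact zero_mem _
  | add A A' _ _ h h' =>
    have : tens (A + A') B = tens A B + tens A' B := by
      funext i j i' j'; simp [tens, add_mul]
    rw [this]; exact add_mem h h'

variable [DecidableEq X]

def idA (A : Finset X) : X → X → ℝ := fun i k => if i = k ∧ i ∈ A then 1 else 0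

theorem idA_eq (A : Finset X) : idA A = ∑ a ∈ A, op fun i => if i = a then 1 else 0 := by
  funext i k
  simp only [idA, Finset.sum_apply, op]
  by_cases h : i = k
  · subst h
    simp
  · rw [if_neg (fun h' => h h'.1)]
    refine (sum_eq_zero fun a _ => ?_).symm
    by_cases h1 : i = a
    · rw [if_neg (show ¬ k = a from fun h2 => h (h1.trans h2.symm)), mul_zero]
    · rw [if_neg h1, zero_mul]

theorem idA_pos (A : Finset X) : idA A ∈ PosC X := by
  rw [idA_eq]
  exact sum_mem fun _ _ => op_pos _

theorem ball_pos {A : Finset X} {p : X → ℝ} (hp : ∀ i, i ∉ A → p i = 0) {a : ℝ}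
    (ha : ∑ i ∈ A, p i ^ 2 ≤ a) : a • idA A - op p ∈ PosC X := by
  have key : a • idA A - op p = (a - ∑ i ∈ A, p i ^ 2) • idA A + (1 / 2 : ℝ) •
      ∑ i ∈ A, ∑ k ∈ A, op fun x =>
        p i * (if x = k then 1 else 0) - p k * (if x = i then 1 else 0) := by
    funext x y
    have h1 : ∀ x, ∑ i ∈ A, p i * (if x = i then 1 else 0) = p x := by
      intro x
      simp only [mul_ite, mul_one, mul_zero, sum_ite_eq]
      split_ifs with h
      · rfl
      · exact (hp x h).symm
    have h2 : ∑ k ∈ A, (if x = k then (1 : ℝ) else 0) * (if y = k then 1 else 0) = idA A x y := by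
      rw [idA_eq]
      simp only [Finset.sum_apply, op]
    have h3 : ∀ i k, (p i * (if x = k then (1 : ℝ) else 0) - p k * (if x = i then 1 else 0)) *
        (p i * (if y = k then 1 else 0) - p k * (if y = i then 1 else 0)) =
        p i ^ 2 * ((if x = k then 1 else 0) * (if y = k then 1 else 0)) +
        ((if x = i then 1 else 0) * (if y = i then 1 else 0)) * p k ^ 2 -
        (p i * (if y = i then 1 else 0)) * (p k * (if x = k then 1 else 0)) -
        (p i * (if x = i then 1 else 0)) * (p k * (if y = k then 1 else 0)) := fun i k => by ring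
    simp only [Pi.add_apply, Pi.sub_apply, Pi.smul_apply, Finset.sum_apply, op, smul_eq_mul, h3,
      sum_add_distrib, sum_sub_distrib, ← mul_sum, ← sum_mul, h1, h2]
    ring
  rw [key]
  exact add_mem (smul_pos (by linarith) (idA_pos A))
    (smul_pos (by norm_num) (sum_mem fun _ _ => sum_mem fun _ _ => op_pos _))

theorem ball_sep {A B : Finset X} {p q : X → ℝ} (hp : ∀ i, i ∉ A → p i = 0)
    (hq : ∀ i, i ∉ B → q i = 0) {a b : ℝ} (ha : ∑ i ∈ A, p i ^ 2 ≤ a)
    (hb : ∑ i ∈ B, q i ^ 2 ≤ b) :
    (a * b) • tens (idA A) (idA B) - tens (op p) (op q) ∈ SepC X := by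
  have key : (a * b) • tens (idA A) (idA B) - tens (op p) (op q) =
      tens (a • idA A - op p) (b • idA B) + tens (op p) (b • idA B - op q) := by
    funext i j i' j'
    simp only [tens, Pi.add_apply, Pi.sub_apply, Pi.smul_apply, smul_eq_mul]
    ring
  rw [key]
  have hb0 : 0 ≤ b := le_trans (sum_nonneg fun _ _ => sq_nonneg _) hb
  exact add_mem (tens_sep (ball_pos hp ha) (smul_pos hb0 (idA_pos B)))
    (tens_sep (op_pos p) (ball_pos hq hb))

end

section
variable {C : Type}

def ev (z : C → ℝ) (l : List (Bool × C)) : ℝ := (l.map fun a => sgn a.1 * z a.2).sum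

def bf (N : C → C → ℝ) (l l' : List (Bool × C)) : ℝ :=
  (l.map fun a => (l'.map fun b => sgn a.1 * sgn b.1 * N a.2 b.2).sum).sum

@[simp] theorem ev_nil (z : C → ℝ) : ev z [] = 0 := rfl

@[simp] theorem ev_cons (z : C → ℝ) (a : Bool × C) (l) :
    ev z (a :: l) = sgn a.1 * z a.2 + ev z l := by simp [ev]

@[simp] theorem bf_nil (N : C → C → ℝ) (l) : bf N [] l = 0 := rfl

theorem bf_cons (N : C → C → ℝ) (a : Bool × C) (l l') :
    bf N (a :: l) l' = sgn a.1 * ev (N a.2) l' + bf N l l' := by
  simp only [bf, List.map_cons, List.sum_cons, ev, ← List.sum_map_mul_left]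
  congr 2
  exact List.map_congr_left fun b _ => by ring

theorem ev_add (z z' : C → ℝ) (l) : ev (z + z') l = ev z l + ev z' l := by
  induction l with
  | nil => simp
  | cons a l ih => simp only [ev_cons, ih, Pi.add_apply]; ring

theorem ev_mul (c : ℝ) (z : C → ℝ) (l) : ev (fun a => c * z a) l = c * ev z l := by
  induction l with
  | nil => simp
  | cons a l ih => simp only [ev_cons, ih]; ring

theorem ev_congr {z z' : C → ℝ} {l : List (Bool × C)} (h : ∀ a ∈ l, z a.2 = z' a.2) :
    ev z l = ev z' l := by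
  unfold ev
  congr 1
  exact List.map_congr_left fun a ha => by rw [h a ha]

theorem bf_op (z : C → ℝ) (l l') : bf (op z) l l' = ev z l * ev z l' := by
  induction l with
  | nil => simp
  | cons a l ih =>
    rw [bf_cons, ih, ev_cons, show op z a.2 = fun b => z a.2 * z b from rfl, ev_mul]
    ring

theorem bf_add (N N' : C → C → ℝ) (l l') : bf (N + N') l l' = bf N l l' + bf N' l l' := by
  induction l with
  | nil => simp
  | cons a l ih => rw [bf_cons, bf_cons, bf_cons, ih, Pi.add_apply, ev_add]; ring

theorem bf_zero (l l' : List (Bool × C)) : bf 0 l l' = 0 := by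
  have := bf_add 0 0 l l'
  rw [add_zero] at this
  linarith

theorem bf_nonneg {N : C → C → ℝ} (hN : N ∈ PosC C) (l) : 0 ≤ bf N l l := by
  induction hN using AddSubmonoid.closure_induction with
  | mem A h =>
    obtain ⟨v, rfl⟩ := h
    rw [bf_op]
    exact mul_self_nonneg _
  | zero => rw [bf_zero]
  | add A B _ _ h h' => rw [bf_add]; exact add_nonneg h h'

variable {J : Type} [Fintype J] [DecidableEq J] (blk : J → Fin 3) (lin : J → J → List (Bool × C))

def tau (N : C → C → ℝ) : ℝ := ∑ i, ∑ j, bf N (lin i j) (lin i j)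

def Psi (N : C → C → ℝ) : J → J → J → J → ℝ := fun i j i' j' =>
  bf N (lin i j) (lin i' j') + if blk i = blk j then 0 else
    bf N (lin i j') (lin i' j) + if i = i' ∧ j = j' then tau lin N else 0

theorem Psi_add (N N' : C → C → ℝ) : Psi blk lin (N + N') = Psi blk lin N + Psi blk lin N' := by
  funext i j i' j'
  simp only [Psi, tau, bf_add, Pi.add_apply, sum_add_distrib]
  split_ifs <;> ring

theorem Psi_zero : Psi blk lin 0 = 0 := by
  funext i j i' j'
  simp [Psi, tau, bf_zero]

/-- the moment matrices whose lift is separable -/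
def Good : AddSubmonoid (C → C → ℝ) where
  carrier := {N | Psi blk lin N ∈ SepC J ∧ N ∈ PosC C}
  zero_mem' := ⟨by rw [Psi_zero]; exact zero_mem _, zero_mem _⟩
  add_mem' := fun h h' => ⟨by rw [Psi_add]; exact add_mem h.1 h'.1, add_mem h.2 h'.2⟩

def sg (e : Fin 4) (k : Fin 3) : ℤ := ![![1, 1, 1], ![1, 1, -1], ![1, -1, 1], ![1, -1, -1]] e k

theorem sg_sum : ∀ a b c d : Fin 3, ∑ e, sg e a * sg e c * (sg e b * sg e d) =
    4 * ((if a = b then if c = d then 1 else 0 else 0) + if a = b then 0 else
      (if a = d then if c = b then 1 else 0 else 0) + if c = a then if d = b then 1 else 0 else 0) := by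
  decide

variable {blk lin}

theorem good_aux (hlin : ∀ i j, blk i ≠ blk j → lin i j = []) {z : C → ℝ} {P Q : J → ℝ}
    (h : ∀ i j, blk i = blk j → P i * Q j = ev z (lin i j))
    (hP : ∀ k, ∑ i ∈ univ.filter fun i => blk i = k, P i ^ 2 ≤ tau lin (op z))
    (hQ : ∀ k, ∑ i ∈ univ.filter fun i => blk i = k, Q i ^ 2 ≤ 1) :
    Psi blk lin (op z) ∈ SepC J := by
  have hev : ∀ i j, ev z (lin i j) = (if blk i = blk j then 1 else 0) * (P i * Q j) := by
    intro i j
    split_ifs with hb
    · rw [h i j hb, one_mul]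
    · rw [hlin i j hb, zero_mul, ev_nil]
  have key : Psi blk lin (op z) = ∑ e : Fin 4, tens ((1 / 4 : ℝ) • op fun i => sg e (blk i) * P i)
      (op fun i => sg e (blk i) * Q i) + ∑ k : Fin 3, ∑ l : Fin 3, if k = l then 0 else
        (tau lin (op z) * 1) • tens (idA (univ.filter fun i => blk i = k))
          (idA (univ.filter fun i => blk i = l)) -
        tens (op fun i => if blk i = k then P i else 0) (op fun i => if blk i = l then Q i else 0) := by
    funext i j i' j'
    have h1 : ∑ e : Fin 4, tens ((1 / 4 : ℝ) • op fun i => sg e (blk i) * P i)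
        (op fun i => sg e (blk i) * Q i) i j i' j' = (1 / 4 : ℝ) * (P i * P i' * (Q j * Q j')) *
        ((∑ e, sg e (blk i) * sg e (blk i') * (sg e (blk j) * sg e (blk j')) : ℤ) : ℝ) := by
      push_cast
      rw [mul_sum]
      refine sum_congr rfl fun e _ => ?_
      simp only [tens, op, Pi.smul_apply, smul_eq_mul]
      ring
    simp only [Pi.add_apply, Finset.sum_apply]
    rw [h1, sg_sum, sum_eq_single (blk i), sum_eq_single (blk j)]
    · simp only [Psi, bf_op, hev]
      by_cases hb : blk i = blk j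
      · simp only [hb, if_true]
        split_ifs <;> simp <;> ring
      · simp only [hb, if_false, Pi.sub_apply, Pi.smul_apply, tens, op, idA, smul_eq_mul,
          mem_filter, mem_univ, and_true, if_true]
        push_cast
        by_cases h2 : i = i' <;> by_cases h3 : j = j' <;> simp only [h2, h3, eq_comm (a := blk i'),
          and_self, and_true, and_false, if_true, if_false] <;> split_ifs <;> ring
    · intro l _ hl
      split_ifs
      · rfl
      · simp [tens, op, idA, Ne.symm hl]
    · simp
    · intro k _ hk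
      refine sum_eq_zero fun l _ => ?_
      split_ifs
      · rfl
      · simp [tens, op, idA, Ne.symm hk]
    · simp
  rw [key]
  refine add_mem (sum_mem fun e _ => tens_sep (smul_pos (by norm_num) (op_pos _)) (op_pos _))
    (sum_mem fun k _ => sum_mem fun l _ => ?_)
  split_ifs
  · exact zero_mem _
  · refine ball_sep (fun i hi => if_neg (by simpa using hi)) (fun i hi => if_neg (by simpa using hi))
      (le_trans (le_of_eq (sum_congr rfl fun i hi => ?_)) (hP k))
      (le_trans (le_of_eq (sum_congr rfl fun i hi => ?_)) (hQ l))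
    · rw [if_pos (mem_filter.1 hi).2]
    · rw [if_pos (mem_filter.1 hi).2]

theorem good_op (hlin : ∀ i j, blk i ≠ blk j → lin i j = []) {z : C → ℝ} {P Q : J → ℝ}
    (h : ∀ i j, blk i = blk j → P i * Q j = ev z (lin i j)) : op z ∈ Good blk lin := by
  refine ⟨?_, op_pos z⟩
  let b : Fin 3 → ℝ := fun k => ∑ i ∈ univ.filter fun i => blk i = k, Q i ^ 2
  have hb : ∀ k, 0 ≤ b k := fun k => sum_nonneg fun _ _ => sq_nonneg _
  refine good_aux hlin (P := fun i => √(b (blk i)) * P i) (Q := fun i => (√(b (blk i)))⁻¹ * Q i)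
    (fun i j hij => ?_) (fun k => ?_) (fun k => ?_)
  · rw [← h i j hij, hij]
    by_cases h0 : b (blk j) = 0
    · have := (sum_eq_zero_iff_of_nonneg fun _ _ => sq_nonneg _).1 h0 j (by simp)
      rw [pow_eq_zero_iff two_ne_zero] at this
      simp [this]
    · have : √(b (blk j)) ≠ 0 := by rwa [Ne, Real.sqrt_eq_zero (hb _)]
      field_simp
  · have h1 : ∑ i ∈ univ.filter fun i => blk i = k, (√(b (blk i)) * P i) ^ 2 =
        ∑ i ∈ univ.filter fun i => blk i = k, ∑ j ∈ univ.filter fun i => blk i = k,
          bf (op z) (lin i j) (lin i j) := by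
      refine sum_congr rfl fun i hi => ?_
      have hi' := (mem_filter.1 hi).2
      rw [mul_pow, Real.sq_sqrt (hb _), hi', sum_mul]
      refine sum_congr rfl fun j hj => ?_
      rw [bf_op, ← h i j (hi'.trans (mem_filter.1 hj).2.symm)]
      ring
    rw [h1, tau]
    have h2 : ∀ i j, 0 ≤ bf (op z) (lin i j) (lin i j) := fun i j => bf_nonneg (op_pos z) _
    refine (sum_le_sum fun i _ => sum_le_sum_of_subset_of_nonneg (subset_univ _)
      fun j _ _ => h2 i j).trans (sum_le_sum_of_subset_of_nonneg (subset_univ _)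
      fun i _ _ => sum_nonneg fun j _ => h2 i j)
  · have h1 : ∑ i ∈ univ.filter fun i => blk i = k, ((√(b (blk i)))⁻¹ * Q i) ^ 2 =
        (b k)⁻¹ * b k := by
      rw [mul_sum]
      refine sum_congr rfl fun i hi => ?_
      rw [mul_pow, inv_pow, Real.sq_sqrt (hb _), (mem_filter.1 hi).2]
    rw [h1]
    exact inv_mul_le_one_of_le₀ le_rfl (hb k)

theorem bf_swap (N : C → C → ℝ) (l l') : bf N l l' = ev (fun b => ev (fun a => N a b) l) l' := by
  induction l with
  | nil =>
    have := ev_mul 0 (fun _ => 0) l'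
    simpa using this.symm
  | cons a l ih =>
    rw [bf_cons, ih, ← ev_mul, ← ev_add]
    congr 1

theorem ev_sum {ι : Type} [Fintype ι] (m : ι → ℝ) (z : ι → C → ℝ) (l) :
    ev (fun b => ∑ r, m r * z r b) l = ∑ r, m r * ev (z r) l := by
  induction l with
  | nil => simp
  | cons a l ih =>
    simp only [ev_cons, ih, mul_add, sum_add_distrib, mul_sum]
    congr 1
    exact sum_congr rfl fun r _ => by ring

theorem sound {ι : Type} [Fintype ι] {N : C → C → ℝ} {c : ι → ℝ} (hc : ∀ r, 0 ≤ c r)
    {p q : ι → J → ℝ} (hT : ∀ i j i' j', Psi blk lin N i j i' j' =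
      ∑ r, c r * (p r i * q r j) * (p r i' * q r j'))
    (hpos : ∀ i j, ∀ a ∈ lin i j, ∃ x : J × J, blk x.1 = blk x.2 ∧ lin x.1 x.2 = [(false, a.2)])
    {i0 j0 : J} (h0 : blk i0 = blk j0) (hne : bf N (lin i0 j0) (lin i0 j0) ≠ 0) :
    ∃ (P Q : J → ℝ) (z : C → ℝ), (∀ i j, blk i = blk j → P i * Q j = ev z (lin i j)) ∧
      P i0 * Q j0 ≠ 0 := by
  classical
  have hG : ∀ i j i' j', blk i = blk j → bf N (lin i j) (lin i' j') =
      ∑ r, c r * (p r i * q r j) * (p r i' * q r j') := by
    intro i j i' j' h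
    rw [← hT, Psi, if_pos h, add_zero]
  let pos : C → J × J := fun a =>
    if h : ∃ x : J × J, blk x.1 = blk x.2 ∧ lin x.1 x.2 = [(false, a)] then h.choose else (i0, j0)
  have hp : ∀ i j, ∀ a ∈ lin i j,
      blk (pos a.2).1 = blk (pos a.2).2 ∧ lin (pos a.2).1 (pos a.2).2 = [(false, a.2)] := by
    intro i j a ha
    have h := hpos i j a ha
    simp only [pos, dif_pos h]
    exact h.choose_spec
  let z : ι → C → ℝ := fun r a => p r (pos a).1 * q r (pos a).2
  have key : ∀ i j, blk i = blk j → ∑ r, c r * (p r i * q r j - ev (z r) (lin i j)) ^ 2 = 0 := by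
    intro i j h
    have h1 := hG i j i j h
    have h2 : bf N (lin i j) (lin i j) = ∑ r, c r * (p r i * q r j) * ev (z r) (lin i j) := by
      rw [← ev_sum, bf_swap]
      refine ev_congr fun b hb => ?_
      have := hG i j (pos b.2).1 (pos b.2).2 h
      rw [(hp i j b hb).2, bf_swap] at this
      simpa using this
    have h3 : bf N (lin i j) (lin i j) = ∑ r, c r * ev (z r) (lin i j) * ev (z r) (lin i j) := by
      rw [← ev_sum, bf_swap]
      refine ev_congr fun b hb => ?_
      have e : ∑ r, c r * ev (z r) (lin i j) * z r b.2 =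
          ∑ r, c r * z r b.2 * ev (z r) (lin i j) := sum_congr rfl fun r _ => by ring
      rw [e, ← ev_sum]
      refine ev_congr fun a ha => ?_
      have := hG (pos a.2).1 (pos a.2).2 (pos b.2).1 (pos b.2).2 (hp i j a ha).1
      rw [(hp i j b hb).2, (hp i j a ha).2] at this
      simp only [bf, List.map_cons, List.map_nil, List.sum_cons, List.sum_nil, sgn_false,
        mul_one, one_mul, add_zero] at this
      rw [this]
      exact sum_congr rfl fun r _ => by ring
    have h4 : ∀ r, c r * (p r i * q r j - ev (z r) (lin i j)) ^ 2 =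
        c r * (p r i * q r j) * (p r i * q r j) - 2 * (c r * (p r i * q r j) * ev (z r) (lin i j)) +
        c r * ev (z r) (lin i j) * ev (z r) (lin i j) := fun r => by ring
    simp only [h4, sum_add_distrib, sum_sub_distrib, ← mul_sum]
    linarith
  rw [hG i0 j0 i0 j0 h0] at hne
  obtain ⟨r, -, hr⟩ := exists_ne_zero_of_sum_ne_zero hne
  refine ⟨p r, q r, z r, fun i j h => ?_, right_ne_zero_of_mul hr⟩
  have := (sum_eq_zero_iff_of_nonneg fun r _ => mul_nonneg (hc r) (sq_nonneg _)).1 (key i j h) r
    (mem_univ r)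
  rw [mul_eq_zero, pow_eq_zero_iff two_ne_zero, sub_eq_zero] at this
  exact this.resolve_left (left_ne_zero_of_mul (left_ne_zero_of_mul hr))

end

end Pool.Agent.Lib.NUC
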