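import Pool.Agent.Lib.NUC.Sep
import Pool.Agent.Lib.NUC.Att

namespace Pool.Agent.Lib.NUC

open Finset

variable {J P : Type} [Fintype J] [DecidableEq J] [Fintype P] (e : P ≃ J × J) (o : J)

def cube (T : J → J → J → J → ℝ) : P → P → P → ℝ := fun a b c =>
  if (e a).2 = o ∧ (e b).2 = o then T (e a).1 (e b).1 (e c).1 (e c).2 else 0

def trc (T : J → J → J → J → ℝ) : ℝ := ∑ i, ∑ j, T i j i j

omit [Fintype J] [DecidableEq J] in
theorem sep_dec {T : J → J → J → J → ℝ} (h : T ∈ SepC J) : ∃ (ι : Type) (_ : Fintype ι)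
    (p q : ι → J → ℝ), ∀ i j i' j', T i j i' j' = ∑ r, p r i * q r j * (p r i' * q r j') := by
  induction h using AddSubmonoid.closure_induction with
  | mem A h =>
    obtain ⟨p, q, rfl⟩ := h
    exact ⟨Unit, inferInstance, fun _ => p, fun _ => q, fun i j i' j' => by simp [tens, op]; ring⟩
  | zero => exact ⟨Empty, inferInstance, Empty.elim, Empty.elim, fun i j i' j' => by simp⟩
  | add A B _ _ h h' =>
    obtain ⟨ι, _, p, q, h⟩ := h
    obtain ⟨κ, _, p', q', h'⟩ := h'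
    exact ⟨ι ⊕ κ, inferInstance, Sum.elim p p', Sum.elim q q', fun i j i' j' => by
      simp [Fintype.sum_sum_type, h, h']⟩

omit [DecidableEq J] in
theorem sum_e (g : J → J → ℝ) : ∑ a, g (e a).1 (e a).2 = ∑ i, ∑ j, g i j := by
  rw [e.sum_comp fun x : J × J => g x.1 x.2, Fintype.sum_prod_type]

theorem nuc_le_of_sep {T : J → J → J → J → ℝ} (h : T ∈ SepC J) :
    sInf (decs (cube e o T)) ≤ trc T := by
  obtain ⟨ι, _, p, q, h⟩ := sep_dec h
  refine (csInf_le (bdd_decs _) (mem_decs (fun r a => if (e a).2 = o then p r (e a).1 else 0)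
    (fun r a => if (e a).2 = o then q r (e a).1 else 0) (fun r a => p r (e a).1 * q r (e a).2)
    fun a b c => ?_)).trans (le_of_eq ?_)
  · by_cases h1 : (e a).2 = o <;> by_cases h2 : (e b).2 = o <;> simp [cube, h1, h2, h]
  · have h1 : ∀ p : J → ℝ, ∑ a, (if (e a).2 = o then p (e a).1 else 0) ^ 2 = ∑ i, p i ^ 2 := by
      intro p
      rw [sum_e e fun i j => (if j = o then p i else 0) ^ 2]
      simp
    simp only [trc, h, h1]
    rw [sum_congr rfl fun i _ => sum_comm, sum_comm]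
    refine sum_congr rfl fun r _ => ?_
    have h2 : ∑ i, ∑ j, (p r i * q r j) ^ 2 = (∑ i, p r i ^ 2) * ∑ i, q r i ^ 2 := by
      simp only [mul_pow, sum_mul_sum]
    rw [sum_e e fun i j => (p r i * q r j) ^ 2, h2, ← Real.sqrt_mul (by positivity),
      Real.mul_self_sqrt (by positivity), ← h2]
    simp only [sq]

theorem sep_of_rep {ι : Type} [Fintype ι] {T : J → J → J → J → ℝ}
    (h : Rep ι (cube e o T) (trc T)) : ∃ (c : ι → ℝ) (p q : ι → J → ℝ), (∀ r, 0 ≤ c r) ∧
      ∀ i j i' j', T i j i' j' = ∑ r, c r * (p r i * q r j) * (p r i' * q r j') := by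
  obtain ⟨l, x, y, z, h1, h2, h3⟩ := h
  let p : ι → J → ℝ := fun r i => x r (e.symm (i, o))
  let q : ι → J → ℝ := fun r i => y r (e.symm (i, o))
  let w : ι → J → J → ℝ := fun r i j => z r (e.symm (i, j))
  have hT : ∀ i j i' j', T i j i' j' = ∑ r, l r * p r i * q r j * w r i' j' := by
    intro i j i' j'
    simpa [cube] using h3 (e.symm (i, o)) (e.symm (j, o)) (e.symm (i', j'))
  have hs : ∀ x : P → ℝ, ∑ a, x a ^ 2 = ∑ i, ∑ j, x (e.symm (i, j)) ^ 2 := by
    intro x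
    rw [← sum_e e fun i j => x (e.symm (i, j)) ^ 2]
    simp
  have hp : ∀ x : P → ℝ, ∑ a, x a ^ 2 ≤ 1 → ∑ i, x (e.symm (i, o)) ^ 2 ≤ 1 := by
    intro x hx
    rw [hs] at hx
    exact (sum_le_sum fun i _ => single_le_sum (f := fun j => x (e.symm (i, j)) ^ 2)
      (fun _ _ => sq_nonneg _) (mem_univ o)).trans hx
  have hr : ∀ r, ∑ i, ∑ j, (p r i * q r j - w r i j) ^ 2 ≤
      2 - 2 * ∑ i, ∑ j, p r i * q r j * w r i j := by
    intro r
    have e1 : ∀ i j, (p r i * q r j - w r i j) ^ 2 =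
        p r i ^ 2 * q r j ^ 2 - 2 * (p r i * q r j * w r i j) + w r i j ^ 2 := fun i j => by ring
    simp only [e1, sum_add_distrib, sum_sub_distrib, ← mul_sum, ← sum_mul]
    have e2 := mul_le_one₀ (hp _ (h1 r).2.1) (by positivity) (hp _ (h1 r).2.2.1)
    have e3 := (h1 r).2.2.2
    rw [hs] at e3
    linarith
  have htr : trc T = ∑ r, l r * ∑ i, ∑ j, p r i * q r j * w r i j := by
    simp only [trc, hT, mul_sum]
    rw [sum_congr rfl fun i _ => sum_comm, sum_comm]
    simp only [mul_assoc]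
  have h0 : ∑ r, l r * ∑ i, ∑ j, (p r i * q r j - w r i j) ^ 2 = 0 := by
    refine le_antisymm ?_ (sum_nonneg fun r _ => mul_nonneg (h1 r).1 (by positivity))
    refine (sum_le_sum fun r _ => mul_le_mul_of_nonneg_left (hr r) (h1 r).1).trans ?_
    simp only [mul_sub, sum_sub_distrib, mul_left_comm _ (2 : ℝ), ← mul_sum, ← sum_mul, ← htr]
    linarith
  refine ⟨l, p, q, fun r => (h1 r).1, fun i j i' j' => ?_⟩
  rw [hT]
  refine sum_congr rfl fun r _ => ?_
  have h4 := (sum_eq_zero_iff_of_nonneg fun r _ => mul_nonneg (h1 r).1 (by positivity)).1 h0 r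
    (mem_univ r)
  rcases mul_eq_zero.1 h4 with h4 | h4
  · simp [h4]
  · have h5 := (sum_eq_zero_iff_of_nonneg fun _ _ => by positivity).1 h4 i' (mem_univ _)
    have h6 := (sum_eq_zero_iff_of_nonneg fun _ _ => sq_nonneg _).1 h5 j' (mem_univ _)
    rw [pow_eq_zero_iff two_ne_zero, sub_eq_zero] at h6
    rw [h6]
    ring

end Pool.Agent.Lib.NUC
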